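import Mathlib

set_option autoImplicit false

/-!
# MP_141f81: the error group is chain connected at one scale (lemma L1)

`G = X →₀ ZMod 2` is the exact group generated by the symbols, `T` a set of short words (lines `x + y + z`, equalities
`x + y` of symbols), `Ball T r` the sums of at most `r` of them.  `D` is a set of short words closed under addition up
to an error in `Ball T κ`.  If `u, v ∈ D` and `u + v` is a sum of relators, then `u` and `v` are joined by a chain in
`D` with steps in `Ball T R`, `R = (l + 6) κ + 1`.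
-/

namespace Pool.Agent.helper35.MF

variable {G : Type*} [AddCommGroup G]

/-- sums of at most `r` elements of `T` -/
def Ball (T : Set G) (r : ℕ) : Set G := {g | ∃ l : List G, l.length ≤ r ∧ (∀ x ∈ l, x ∈ T) ∧ l.sum = g}

theorem Ball.zero (T : Set G) (r : ℕ) : (0 : G) ∈ Ball T r := ⟨[], by simp, by simp, by simp⟩

theorem Ball.mono {T : Set G} {r r' : ℕ} (h : r ≤ r') {g : G} (hg : g ∈ Ball T r) : g ∈ Ball T r' := by
  obtain ⟨l, h1, h2, h3⟩ := hg
  exact ⟨l, h1.trans h, h2, h3⟩

theorem ball_add {T : Set G} {r r' : ℕ} {g g' : G} (hg : g ∈ Ball T r) (hg' : g' ∈ Ball T r') :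
    g + g' ∈ Ball T (r + r') := by
  obtain ⟨l, h1, h2, h3⟩ := hg
  obtain ⟨l', h1', h2', h3'⟩ := hg'
  refine ⟨l ++ l', by rw [List.length_append]; omega, fun x hx => ?_, by rw [List.sum_append, h3, h3']⟩
  rcases List.mem_append.mp hx with h | h
  · exact h2 x h
  · exact h2' x h

theorem Ball.one {T : Set G} {g : G} (hg : g ∈ T) : g ∈ Ball T 1 := ⟨[g], by simp, by simpa using hg, by simp⟩

section

variable {X : Type} (T : Set (X →₀ ZMod 2)) (D : Set (X →₀ ZMod 2)) (κ l0 : ℕ)

/-- the symbol `x` -/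
noncomputable abbrev sy (x : X) : X →₀ ZMod 2 := Finsupp.single x 1

/-- the word with letters `l` -/
noncomputable abbrev wd (l : List X) : X →₀ ZMod 2 := (l.map sy).sum

/-- `D` is closed under addition up to errors in `Ball T κ`, and its elements are words of length at most `l0` -/
structure CoarseSet : Prop where
  line : ∀ t ∈ T, ∃ l : List X, l.length ≤ l0 ∧ t = wd l
  zero : (0 : X →₀ ZMod 2) ∈ D
  sym : ∀ x : X, sy x ∈ D
  add : ∀ u ∈ D, ∀ v ∈ D, ∃ w ∈ D, u + v + w ∈ Ball T κ
  word : ∀ u ∈ D, ∃ l : List X, l.length ≤ l0 ∧ u = wd l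

end

theorem rtg_symm {α : Type*} {r : α → α → Prop} (hr : ∀ a b, r a b → r b a) {a b : α}
    (h : Relation.ReflTransGen r a b) : Relation.ReflTransGen r b a := by
  induction h with
  | refl => exact Relation.ReflTransGen.refl
  | tail _ hbc ih => exact Relation.ReflTransGen.head (hr _ _ hbc) ih

theorem two_eq {X : Type} (g : X →₀ ZMod 2) : g + g = 0 := by
  ext x
  rw [Finsupp.add_apply, Finsupp.zero_apply]
  exact CharTwo.add_self_eq_zero _

section

variable {X : Type} {T : Set (X →₀ ZMod 2)} {D : Set (X →₀ ZMod 2)} {κ l0 : ℕ}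
  (h : CoarseSet T D κ l0)
include h

/-- the addition of `D` -/
noncomputable def CoarseSet.op (u v : D) : D :=
  ⟨(h.add u u.2 v v.2).choose, (h.add u u.2 v v.2).choose_spec.1⟩

theorem CoarseSet.op_spec (u v : D) : (u : X →₀ ZMod 2) + v + h.op u v ∈ Ball T κ :=
  (h.add u u.2 v v.2).choose_spec.2

/-- the symbols in `D` -/
noncomputable def CoarseSet.s (x : X) : D := ⟨sy x, h.sym x⟩

/-- zero -/
def CoarseSet.z : D := ⟨0, h.zero⟩

/-- evaluation of a word in `D` -/
noncomputable def CoarseSet.ev : List X → D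
  | [] => h.z
  | x :: l => h.op (h.s x) (CoarseSet.ev l)

/-- law pairs -/
inductive CoarseSet.Law : D → D → Prop
  | assoc (x y z : D) : CoarseSet.Law (h.op (h.op x y) z) (h.op x (h.op y z))
  | comm (x y : D) : CoarseSet.Law (h.op x y) (h.op y x)
  | self (x : D) : CoarseSet.Law (h.op x x) h.z
  | zero (x : D) : CoarseSet.Law (h.op x h.z) x
  | line (l : List X) (hl : l.length ≤ l0) (ht : wd l ∈ T) : CoarseSet.Law (h.ev l) h.z
  | word (u : D) (l : List X) (hl : l.length ≤ l0) (hu : (u : X →₀ ZMod 2) = wd l) :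
      CoarseSet.Law u (h.ev l)

/-- edges -/
def CoarseSet.Edge (u v : D) : Prop := h.Law u v ∨ ∃ a b t, h.Law a b ∧ u = h.op a t ∧ v = h.op b t

theorem CoarseSet.law_edge {u v : D} (hl : h.Law u v) : h.Edge u v := Or.inl hl

theorem CoarseSet.edge_op {u v : D} (he : h.Edge u v) (t : D) :
    Relation.EqvGen h.Edge (h.op u t) (h.op v t) := by
  rcases he with he | ⟨a, b, s, hl, rfl, rfl⟩
  · exact Relation.EqvGen.rel _ _ (Or.inr ⟨u, v, t, he, rfl, rfl⟩)
  · refine Relation.EqvGen.trans _ (h.op a (h.op s t)) _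
      (Relation.EqvGen.rel _ _ (Or.inl (CoarseSet.Law.assoc a s t))) ?_
    refine Relation.EqvGen.trans _ (h.op b (h.op s t)) _
      (Relation.EqvGen.rel _ _ (Or.inr ⟨a, b, h.op s t, hl, rfl, rfl⟩)) ?_
    exact Relation.EqvGen.symm _ _ (Relation.EqvGen.rel _ _ (Or.inl (CoarseSet.Law.assoc b s t)))

theorem CoarseSet.rel_op {u v : D} (he : Relation.EqvGen h.Edge u v) (t : D) :
    Relation.EqvGen h.Edge (h.op u t) (h.op v t) := by
  induction he with
  | rel u v he => exact h.edge_op he t
  | refl u => exact Relation.EqvGen.refl _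
  | symm u v _ ih => exact Relation.EqvGen.symm _ _ ih
  | trans u v w _ _ ih1 ih2 => exact Relation.EqvGen.trans _ _ _ ih1 ih2

theorem CoarseSet.rel_comm (u t : D) : Relation.EqvGen h.Edge (h.op u t) (h.op t u) :=
  Relation.EqvGen.rel _ _ (Or.inl (CoarseSet.Law.comm u t))

theorem CoarseSet.rel_op2 {u v u' v' : D} (h1 : Relation.EqvGen h.Edge u v)
    (h2 : Relation.EqvGen h.Edge u' v') : Relation.EqvGen h.Edge (h.op u u') (h.op v v') := by
  refine Relation.EqvGen.trans _ (h.op v u') _ (h.rel_op h1 u') ?_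
  refine Relation.EqvGen.trans _ (h.op u' v) _ (h.rel_comm v u') ?_
  refine Relation.EqvGen.trans _ (h.op v' v) _ (h.rel_op h2 v) (h.rel_comm v' v)

/-- the quotient of `D` -/
def CoarseSet.Q : Type := Quotient (Relation.EqvGen.setoid h.Edge)

/-- the class of an element -/
def CoarseSet.cl (u : D) : h.Q := Quotient.mk (Relation.EqvGen.setoid h.Edge) u

theorem CoarseSet.cl_eq {u v : D} : h.cl u = h.cl v ↔ Relation.EqvGen h.Edge u v := Quotient.eq

noncomputable instance CoarseSet.instAdd : Add h.Q :=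
  ⟨Quotient.map₂ h.op fun _ _ h1 _ _ h2 => h.rel_op2 h1 h2⟩

theorem CoarseSet.cl_op (u v : D) : h.cl (h.op u v) = h.cl u + h.cl v := rfl

theorem CoarseSet.law_mk {u v : D} (hl : h.Law u v) : h.cl u = h.cl v :=
  h.cl_eq.mpr (Relation.EqvGen.rel _ _ (Or.inl hl))

theorem CoarseSet.Qassoc (a b c : h.Q) : a + b + c = a + (b + c) := by
  induction a using Quotient.inductionOn with | h x =>
  induction b using Quotient.inductionOn with | h y =>
  induction c using Quotient.inductionOn with | h z =>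
  exact h.law_mk (CoarseSet.Law.assoc x y z)

theorem CoarseSet.Qcomm (a b : h.Q) : a + b = b + a := by
  induction a using Quotient.inductionOn with | h x =>
  induction b using Quotient.inductionOn with | h y =>
  exact h.law_mk (CoarseSet.Law.comm x y)

theorem CoarseSet.Qself (a : h.Q) : a + a = h.cl h.z := by
  induction a using Quotient.inductionOn with | h x =>
  exact h.law_mk (CoarseSet.Law.self x)

theorem CoarseSet.Qzero (a : h.Q) : a + h.cl h.z = a := by
  induction a using Quotient.inductionOn with | h x =>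
  exact h.law_mk (CoarseSet.Law.zero x)

noncomputable instance CoarseSet.instZero : Zero h.Q := ⟨h.cl h.z⟩

noncomputable instance CoarseSet.instNeg : Neg h.Q := ⟨id⟩

noncomputable instance CoarseSet.instGroup : AddCommGroup h.Q where
  add_assoc := h.Qassoc
  zero_add a := (h.Qcomm _ _).trans (h.Qzero a)
  add_zero := h.Qzero
  nsmul := nsmulRec
  zsmul := zsmulRec
  neg_add_cancel := h.Qself
  add_comm := h.Qcomm

theorem CoarseSet.Qtwo (a : h.Q) : a + a = 0 := h.Qself a

noncomputable instance CoarseSet.instModule : Module (ZMod 2) h.Q :=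
  AddCommGroup.zmodModule (n := 2) fun a => by rw [two_nsmul]; exact h.Qtwo a

/-- the homomorphism to the quotient -/
noncomputable def CoarseSet.Phi : (X →₀ ZMod 2) →ₗ[ZMod 2] h.Q :=
  Finsupp.linearCombination (ZMod 2) fun x => h.cl (h.s x)

theorem CoarseSet.Phi_sy (x : X) : h.Phi (sy x) = h.cl (h.s x) := by
  rw [CoarseSet.Phi, Finsupp.linearCombination_single, one_smul]

theorem CoarseSet.Phi_wd (l : List X) : h.Phi (wd l) = h.cl (h.ev l) := by
  induction l with
  | nil =>
    rw [wd, List.map_nil, List.sum_nil, map_zero]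
    rfl
  | cons x l ih =>
    rw [wd, List.map_cons, List.sum_cons, map_add, h.Phi_sy]
    rw [wd] at ih
    rw [ih]
    rfl

theorem CoarseSet.Phi_D (u : D) : h.Phi u = h.cl u := by
  obtain ⟨l, hl, hu⟩ := h.word u u.2
  rw [h.law_mk (CoarseSet.Law.word u l hl hu), ← h.Phi_wd, ← hu]

theorem CoarseSet.Phi_T {t : X →₀ ZMod 2} (ht : t ∈ T) : h.Phi t = 0 := by
  obtain ⟨l, hl, rfl⟩ := h.line t ht
  rw [h.Phi_wd, h.law_mk (CoarseSet.Law.line l hl ht)]
  rfl

theorem CoarseSet.rel_of_mem {u v : D} (huv : (u : X →₀ ZMod 2) + v ∈ AddSubgroup.closure T) :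
    Relation.EqvGen h.Edge u v := by
  have h1 : AddSubgroup.closure T ≤ h.Phi.toAddMonoidHom.ker := by
    rw [AddSubgroup.closure_le]
    intro t ht
    exact h.Phi_T ht
  have h2 : h.Phi ((u : X →₀ ZMod 2) + v) = 0 := h1 huv
  rw [map_add, h.Phi_D, h.Phi_D] at h2
  rw [← h.cl_eq]
  have h3 := congrArg (· + h.cl v) h2
  simp only [add_assoc, h.Qtwo, zero_add, add_zero] at h3
  exact h3

/-! ### sizes -/

theorem CoarseSet.op_spec' (u v : D) : (h.op u v : X →₀ ZMod 2) + (u + v) ∈ Ball T κ := by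
  have h1 := h.op_spec u v
  rwa [add_comm] at h1

omit h in
theorem tri_ball {r r' : ℕ} {a b c : X →₀ ZMod 2} (h1 : a + b ∈ Ball T r) (h2 : b + c ∈ Ball T r') :
    a + c ∈ Ball T (r + r') := by
  have h3 := ball_add h1 h2
  have h4 : a + b + (b + c) = a + c := by
    rw [add_assoc, ← add_assoc b b c, two_eq, zero_add]
  rwa [h4] at h3

theorem CoarseSet.ev_ball (l : List X) : wd l + h.ev l ∈ Ball T (l.length * κ) := by
  induction l with
  | nil =>
    have h1 : wd ([] : List X) + h.ev [] = 0 := by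
      change (0 : X →₀ ZMod 2) + 0 = 0
      rw [add_zero]
    rw [h1]
    exact Ball.zero _ _
  | cons x l ih =>
    have h1 : wd (x :: l) = sy x + wd l := by
      rw [wd, List.map_cons, List.sum_cons]
    have h2 := h.op_spec (h.s x) (h.ev l)
    have h3 : wd (x :: l) + h.ev (x :: l) = (wd l + h.ev l) +
        ((h.s x : X →₀ ZMod 2) + h.ev l + h.op (h.s x) (h.ev l)) := by
      rw [h1]
      change sy x + wd l + (h.op (h.s x) (h.ev l) : X →₀ ZMod 2) =
        (wd l + h.ev l) + (sy x + h.ev l + h.op (h.s x) (h.ev l))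
      have h4 := two_eq (h.ev l : X →₀ ZMod 2)
      calc sy x + wd l + (h.op (h.s x) (h.ev l) : X →₀ ZMod 2)
          = sy x + wd l + (h.op (h.s x) (h.ev l) : X →₀ ZMod 2) +
            ((h.ev l : X →₀ ZMod 2) + h.ev l) := by rw [h4, add_zero]
        _ = _ := by abel
    rw [h3, List.length_cons, Nat.succ_mul]
    exact ball_add ih h2

theorem CoarseSet.law_ball {u v : D} (hl : h.Law u v) :
    (u : X →₀ ZMod 2) + v ∈ Ball T ((l0 + 4) * κ + 1) := by
  have hz : ∀ {r : ℕ}, r ≤ (l0 + 4) * κ + 1 → ∀ {g : X →₀ ZMod 2}, g ∈ Ball T r →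
      g ∈ Ball T ((l0 + 4) * κ + 1) := fun hr _ hg => Ball.mono hr hg
  have h4 : (l0 + 4) * κ = l0 * κ + 4 * κ := by ring
  induction hl with
  | assoc x y z =>
    have e1 := h.op_spec x y
    have e2 := h.op_spec (h.op x y) z
    have e3 := h.op_spec y z
    have e4 := h.op_spec x (h.op y z)
    have e5 := ball_add (ball_add e1 e2) (ball_add e3 e4)
    refine hz (r := κ + κ + (κ + κ)) (by omega) ?_
    convert e5 using 1
    have f1 := two_eq (h.op x y : X →₀ ZMod 2)
    have f2 := two_eq (h.op y z : X →₀ ZMod 2)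
    have f3 := two_eq (x : X →₀ ZMod 2)
    have f4 := two_eq (y : X →₀ ZMod 2)
    have f5 := two_eq (z : X →₀ ZMod 2)
    calc (h.op (h.op x y) z : X →₀ ZMod 2) + h.op x (h.op y z)
        = (h.op (h.op x y) z : X →₀ ZMod 2) + h.op x (h.op y z) +
          ((h.op x y : X →₀ ZMod 2) + h.op x y) + ((h.op y z : X →₀ ZMod 2) + h.op y z) +
          ((x : X →₀ ZMod 2) + x) + ((y : X →₀ ZMod 2) + y) + ((z : X →₀ ZMod 2) + z) := by
            rw [f1, f2, f3, f4, f5]; simp only [add_zero]
      _ = _ := by abel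
  | comm x y =>
    have e1 := ball_add (h.op_spec x y) (h.op_spec y x)
    refine hz (r := κ + κ) (by omega) ?_
    convert e1 using 1
    have f3 := two_eq (x : X →₀ ZMod 2)
    have f4 := two_eq (y : X →₀ ZMod 2)
    calc (h.op x y : X →₀ ZMod 2) + h.op y x
        = (h.op x y : X →₀ ZMod 2) + h.op y x + ((x : X →₀ ZMod 2) + x) +
          ((y : X →₀ ZMod 2) + y) := by rw [f3, f4]; simp only [add_zero]
      _ = _ := by abel
  | self x =>
    have e1 := h.op_spec x x
    refine hz (r := κ) (by omega) ?_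
    convert e1 using 1
    rw [two_eq (x : X →₀ ZMod 2), zero_add]
    exact add_zero _
  | zero x =>
    have e1 := h.op_spec x h.z
    refine hz (r := κ) (by omega) ?_
    convert e1 using 1
    change (h.op x h.z : X →₀ ZMod 2) + x = (x : X →₀ ZMod 2) + 0 + h.op x h.z
    rw [add_zero, add_comm]
  | line l hl ht =>
    have e1 := ball_add (h.ev_ball l) (Ball.one ht)
    have h5 := Nat.mul_le_mul_right κ hl
    refine hz (r := l.length * κ + 1) (by omega) ?_
    convert e1 using 1
    change (h.ev l : X →₀ ZMod 2) + 0 = wd l + h.ev l + wd l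
    have f3 := two_eq (wd l)
    calc (h.ev l : X →₀ ZMod 2) + 0 = (h.ev l : X →₀ ZMod 2) + (wd l + wd l) := by rw [f3]
      _ = _ := by abel
  | word u l hl hu =>
    have e1 := h.ev_ball l
    rw [← hu] at e1
    refine hz (r := l.length * κ) ?_ e1
    have := Nat.mul_le_mul_right κ hl
    omega

theorem CoarseSet.edge_ball {u v : D} (he : h.Edge u v) :
    (u : X →₀ ZMod 2) + v ∈ Ball T ((l0 + 6) * κ + 1) := by
  have h4 : (l0 + 4) * κ + 1 + 2 * κ = (l0 + 6) * κ + 1 := by ring
  rcases he with he | ⟨a, b, t, hl, rfl, rfl⟩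
  · exact Ball.mono (by omega) (h.law_ball he)
  · have e1 := ball_add (h.law_ball hl) (ball_add (h.op_spec a t) (h.op_spec b t))
    rw [← h4, two_mul]
    convert e1 using 1
    have f3 := two_eq (a : X →₀ ZMod 2)
    have f4 := two_eq (b : X →₀ ZMod 2)
    have f5 := two_eq (t : X →₀ ZMod 2)
    calc (h.op a t : X →₀ ZMod 2) + h.op b t
        = (h.op a t : X →₀ ZMod 2) + h.op b t + ((a : X →₀ ZMod 2) + a) +
          ((b : X →₀ ZMod 2) + b) + ((t : X →₀ ZMod 2) + t) := by
            rw [f3, f4, f5]; simp only [add_zero]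
      _ = _ := by abel

/-- **Chain connectedness at one scale.** -/
theorem CoarseSet.chain {u v : X →₀ ZMod 2} (hu : u ∈ D) (hv : v ∈ D)
    (huv : u + v ∈ AddSubgroup.closure T) :
    Relation.ReflTransGen (fun a b => a ∈ D ∧ b ∈ D ∧ a + b ∈ Ball T ((l0 + 6) * κ + 1)) u v := by
  have h1 := h.rel_of_mem (u := ⟨u, hu⟩) (v := ⟨v, hv⟩) huv
  have h2 : ∀ a b : D, Relation.EqvGen h.Edge a b →
      Relation.ReflTransGen (fun a b : X →₀ ZMod 2 => a ∈ D ∧ b ∈ D ∧
        a + b ∈ Ball T ((l0 + 6) * κ + 1)) (a : X →₀ ZMod 2) b := by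
    intro a b hab
    induction hab with
    | rel a b hab => exact Relation.ReflTransGen.single ⟨a.2, b.2, h.edge_ball hab⟩
    | refl a => exact Relation.ReflTransGen.refl
    | symm a b _ ih =>
      exact rtg_symm (fun a b hab => ⟨hab.2.1, hab.1, by rw [add_comm b a]; exact hab.2.2⟩) ih
    | trans a b c _ _ ih1 ih2 => exact ih1.trans ih2
  exact h2 _ _ h1

end

end Pool.Agent.helper35.MF
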