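import Mathlib

set_option autoImplicit false

/-!
# MP_141f81: a coarse ring of exponent two, chain connected and with finite balls, is bounded (step (4))

`G` is an exact elementary abelian 2-group with a subadditive norm `N`, `K` a subset closed under addition up to
an error of norm `C`.  All maps are controlled by an arbitrary monotone function `F` (no Lipschitz bound is needed).
The bound depends only on the constants.
-/

namespace Pool.Agent.helper35.MF

/-- an exact group of exponent two with a subadditive norm, and a subset `K`, closed under addition up to the error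
`C`, chain connected at scale `R`, whose balls of radius `r` are covered by `β r` balls of radius `C` -/
structure CGroup {G : Type*} [AddCommGroup G] (N : G → ℕ) (K : Set G) (C R : ℕ) (β : ℕ → ℕ) : Prop where
  two : ∀ g : G, g + g = 0
  N0 : N 0 = 0
  Nadd : ∀ a b, N (a + b) ≤ N a + N b
  zero : (0 : G) ∈ K
  add : ∀ a ∈ K, ∀ b ∈ K, ∃ c ∈ K, N (a + b + c) ≤ C
  cover : ∀ r, ∃ S : Finset G, S.card ≤ β r ∧ (∀ s ∈ S, s ∈ K) ∧
    ∀ a ∈ K, N a ≤ r → ∃ s ∈ S, N (a + s) ≤ C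
  chain : ∀ a ∈ K, ∃ (l : ℕ) (v : ℕ → G), v 0 = 0 ∧ v l = a ∧ (∀ i, v i ∈ K) ∧
    ∀ i < l, N (v i + v (i + 1)) ≤ R

/-- a coarse commutative ring of exponent two in the exact group `G` -/
structure CRing {G : Type*} [AddCommGroup G] (N : G → ℕ) (K : Set G) (mul : G → G → G) (C R : ℕ)
    (F β : ℕ → ℕ) : Prop extends CGroup N K C R β where
  mono : Monotone F
  mul_mem : ∀ a ∈ K, ∀ b ∈ K, mul a b ∈ K
  lin : ∀ a ∈ K, ∀ b ∈ K, ∀ c ∈ K, ∀ e ∈ K, N (mul a b + mul a c + mul a e) ≤ F (N (b + c + e))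
  comm : ∀ a ∈ K, ∀ b ∈ K, N (mul a b + mul b a) ≤ C
  assoc : ∀ a ∈ K, ∀ b ∈ K, ∀ c ∈ K, N (mul (mul a b) c + mul (mul a c) b) ≤ C
  sq : ∀ a ∈ K, N a ≤ F (N (mul a a))

variable {G : Type*} [AddCommGroup G] {N : G → ℕ} {K : Set G} {mul : G → G → G} {C R : ℕ} {F β : ℕ → ℕ}

namespace CGroup

variable (h : CGroup N K C R β)
include h

theorem cancel (a b : G) : a + b + b = a := by rw [add_assoc, h.two, add_zero]

theorem le_add (a b : G) : N a ≤ N (a + b) + N b := by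
  have h1 := h.Nadd (a + b) b
  rwa [h.cancel] at h1

/-- discrete intermediate values of a function with bounded steps -/
theorem exists_at {g : G → ℕ} {s : ℕ} (g0 : g 0 = 0)
    (hg : ∀ a ∈ K, ∀ b ∈ K, N (a + b) ≤ R → g b ≤ g a + s) {a : G} (ha : a ∈ K) {t : ℕ} (ht : t ≤ g a) :
    ∃ w ∈ K, t ≤ g w ∧ g w ≤ t + s := by
  classical
  obtain ⟨l, v, hv0, hvl, hvK, hv⟩ := h.chain a ha
  have hex : ∃ i, t ≤ g (v i) := ⟨l, by rw [hvl]; exact ht⟩
  have h1 := Nat.find_spec hex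
  refine ⟨v (Nat.find hex), hvK _, h1, ?_⟩
  have hle : Nat.find hex ≤ l := Nat.find_min' hex (by rw [hvl]; exact ht)
  rcases Nat.eq_zero_or_pos (Nat.find hex) with h0 | h0
  · rw [h0, hv0, g0]
    exact Nat.zero_le _
  · obtain ⟨i, hi⟩ : ∃ i, Nat.find hex = i + 1 := ⟨Nat.find hex - 1, by omega⟩
    have h2 : ¬ t ≤ g (v i) := Nat.find_min hex (by omega)
    have h3 := hv i (by omega)
    have h4 := hg (v i) (hvK i) (v (i + 1)) (hvK (i + 1)) h3
    rw [hi]
    omega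

/-- **A function with bounded steps which takes at most `n` values up to `c` is bounded.** -/
theorem few_values {g : G → ℕ} {s : ℕ} (g0 : g 0 = 0)
    (hg : ∀ a ∈ K, ∀ b ∈ K, N (a + b) ≤ R → g b ≤ g a + s) {n c : ℕ} {ι : Type*} [Fintype ι]
    (hι : Fintype.card ι ≤ n) (cls : G → ι)
    (hc : ∀ a ∈ K, ∀ b ∈ K, cls a = cls b → g b ≤ g a + c) {a : G} (ha : a ∈ K) :
    g a ≤ n * (s + c + 1) := by
  by_contra hcon
  push Not at hcon
  have h1 : ∀ j : Fin (n + 1), ∃ w ∈ K, (j : ℕ) * (s + c + 1) ≤ g w ∧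
      g w ≤ (j : ℕ) * (s + c + 1) + s := by
    intro j
    refine h.exists_at g0 hg ha (le_trans (Nat.mul_le_mul_right _ ?_) hcon.le)
    have := j.2
    omega
  choose w hwK hw1 hw2 using h1
  obtain ⟨i, j, hij, he⟩ := Fintype.exists_ne_map_eq_of_card_lt (fun j => cls (w j))
    (by rw [Fintype.card_fin]; omega)
  have hkey : ∀ i j : Fin (n + 1), cls (w i) = cls (w j) → ¬ i < j := by
    intro i j hcl hlt
    have h2 := hc _ (hwK i) _ (hwK j) hcl
    have h4 := hw1 j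
    have h5 := hw2 i
    have h6 : ((i : ℕ) + 1) * (s + c + 1) ≤ (j : ℕ) * (s + c + 1) := Nat.mul_le_mul_right _ hlt
    have h7 : ((i : ℕ) + 1) * (s + c + 1) = (i : ℕ) * (s + c + 1) + (s + c + 1) := by ring
    omega
  rcases lt_or_gt_of_ne hij with hlt | hlt
  · exact hkey i j he hlt
  · exact hkey j i he.symm hlt

end CGroup

namespace CRing

variable (h : CRing N K mul C R F β)
include h

theorem mul_zero {a : G} (ha : a ∈ K) : N (mul a 0) ≤ F 0 := by
  have h1 := h.lin a ha 0 h.zero 0 h.zero 0 h.zero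
  rw [h.two, zero_add, add_zero, add_zero, h.N0] at h1
  exact h1

theorem lip {a b c : G} (ha : a ∈ K) (hb : b ∈ K) (hc : c ∈ K) :
    N (mul a b + mul a c) ≤ F (N (b + c)) + F 0 := by
  have h1 := h.lin a ha b hb c hc 0 h.zero
  rw [add_zero] at h1
  have h2 := h.le_add (mul a b + mul a c) (mul a 0)
  have h3 := h.mul_zero ha
  omega

theorem nrm {a b : G} (ha : a ∈ K) (hb : b ∈ K) : N (mul a b) ≤ F (N b) + 2 * F 0 := by
  have h1 := h.lip ha hb h.zero
  rw [add_zero] at h1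
  have h2 := h.le_add (mul a b) (mul a 0)
  have h3 := h.mul_zero ha
  omega

theorem small {y y1 y2 f : G} (hy : y ∈ K) (hy1 : y1 ∈ K) (hy2 : y2 ∈ K) (hf : f ∈ K)
    (h12 : N (y1 + y2 + y) ≤ C) {E : ℕ} (he : N (mul y1 f + mul y2 f) ≤ E) :
    N (mul y f) ≤ F C + 3 * C + E := by
  have h1 := h.lin f hf y1 hy1 y2 hy2 y hy
  have h2 := h.le_add (mul y f) (mul f y)
  have h3 := h.comm y hy f hf
  have h4 := h.le_add (mul f y) (mul f y1 + mul f y2)
  rw [add_comm (mul f y)] at h4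
  have h5 := h.le_add (mul f y1 + mul f y2) (mul y1 f + mul y2 f)
  have h7 : N (mul f y1 + mul f y2 + (mul y1 f + mul y2 f)) ≤ 2 * C := by
    rw [add_add_add_comm]
    have h8 := h.Nadd (mul f y1 + mul y1 f) (mul f y2 + mul y2 f)
    have h9 := h.comm f hf y1 hy1
    have h10 := h.comm f hf y2 hy2
    omega
  have h11 := h.mono h12
  omega

theorem gap {y v : G} {b E : ℕ} (hy : y ∈ K) (hv : v ∈ K)
    (hs : ∀ f ∈ K, N f ≤ b → N (mul y f) ≤ E) (hb : N (mul y v) ≤ b) :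
    N (mul y v) ≤ F (F E + 2 * F 0 + 2 * C) := by
  have hu : mul y v ∈ K := h.mul_mem y hy v hv
  obtain ⟨u, hu0⟩ : ∃ u, u = mul y v := ⟨_, rfl⟩
  rw [← hu0] at hb hu ⊢
  have h1 : N (mul y u) ≤ E := hs u hu hb
  have hyu : mul y u ∈ K := h.mul_mem y hy u hu
  have h2 := h.assoc y hy v hv u hu
  rw [← hu0] at h2
  have h3 := h.le_add (mul u u) (mul (mul y u) v)
  have h4 := h.le_add (mul (mul y u) v) (mul v (mul y u))
  have h5 := h.comm (mul y u) hyu v hv
  have h6 := h.nrm hv hyu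
  have h7 := h.mono h1
  have h8 : N (mul u u) ≤ F E + 2 * F 0 + 2 * C := by omega
  exact (h.sq u hu).trans (h.mono h8)

/-- `y * v` stays small along a chain, so `y` is small -/
theorem small_of {y : G} {b E : ℕ} (hy : y ∈ K) (hs : ∀ f ∈ K, N f ≤ b → N (mul y f) ≤ E)
    (hb : F (F E + 2 * F 0 + 2 * C) + F R + 2 * F 0 ≤ b) :
    N y ≤ F (F (F E + 2 * F 0 + 2 * C) + F 0) := by
  obtain ⟨l, v, hv0, hvl, hvK, hv⟩ := h.chain y hy
  have h1 : ∀ i ≤ l, N (mul y (v i)) ≤ F (F E + 2 * F 0 + 2 * C) + F 0 := by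
    intro i
    induction i with
    | zero =>
      intro _
      rw [hv0]
      have := h.mul_zero hy
      omega
    | succ i ih =>
      intro hi
      have h2 := ih (by omega)
      have h3 := h.mono (hv i (by omega))
      have h4 := h.lip hy (hvK (i + 1)) (hvK i)
      have h5 := h.le_add (mul y (v (i + 1))) (mul y (v i))
      rw [add_comm (v (i + 1)) (v i)] at h4
      have h6 := h.gap hy (hvK (i + 1)) hs (by omega)
      omega
  have h2 := h1 l le_rfl
  rw [hvl] at h2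
  exact (h.sq y hy).trans (h.mono h2)

theorem close_of {y1 y2 : G} {b E : ℕ} (hy1 : y1 ∈ K) (hy2 : y2 ∈ K)
    (he : ∀ f ∈ K, N f ≤ b → N (mul y1 f + mul y2 f) ≤ E)
    (hb : F (F (F C + 3 * C + E) + 2 * F 0 + 2 * C) + F R + 2 * F 0 ≤ b) :
    N (y1 + y2) ≤ F (F (F (F C + 3 * C + E) + 2 * F 0 + 2 * C) + F 0) + C := by
  obtain ⟨y, hy, h12⟩ := h.add y1 hy1 y2 hy2
  have h1 := h.small_of hy (fun f hf hfb => h.small hy hy1 hy2 hf h12 (he f hf hfb)) hb
  have h2 := h.le_add (y1 + y2) y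
  omega

end CRing

/-- **A coarse ring of exponent two is bounded**, with a bound which depends only on the constants. -/
theorem bounded (C R : ℕ) (F β : ℕ → ℕ) : ∃ B : ℕ, ∀ (G : Type) [AddCommGroup G] (N : G → ℕ) (K : Set G)
    (mul : G → G → G), CRing N K mul C R F β → ∀ a ∈ K, N a ≤ B := by
  classical
  obtain ⟨E, hE⟩ : ∃ E, 2 * C + 2 * (F C + F 0) = E := ⟨_, rfl⟩
  obtain ⟨b, hb⟩ : ∃ b, F (F (F C + 3 * C + E) + 2 * F 0 + 2 * C) + F R + 2 * F 0 = b := ⟨_, rfl⟩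
  obtain ⟨b', hb'⟩ : ∃ b', F (b + C) + 2 * F 0 = b' := ⟨_, rfl⟩
  obtain ⟨m, hm⟩ : ∃ m, F (F (F (F C + 3 * C + E) + 2 * F 0 + 2 * C) + F 0) + C = m := ⟨_, rfl⟩
  refine ⟨β b' ^ β b * (R + m + 1), fun G _ N K mul h a ha => ?_⟩
  obtain ⟨S, hS1, hS2, hS3⟩ := h.cover b
  obtain ⟨S', hS1', hS2', hS3'⟩ := h.cover b'
  obtain ⟨S0, hS0⟩ : ∃ S0 : Finset G, S0 = S.filter (fun s => N s ≤ b + C) := ⟨_, rfl⟩
  have hSK : ∀ s ∈ S0, s ∈ K ∧ N s ≤ b + C := by
    intro s hs
    rw [hS0, Finset.mem_filter] at hs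
    exact ⟨hS2 s hs.1, hs.2⟩
  have hcov : ∀ f ∈ K, N f ≤ b → ∃ s ∈ S0, N (f + s) ≤ C := by
    intro f hf hfb
    obtain ⟨s, hs, hfs⟩ := hS3 f hf hfb
    refine ⟨s, ?_, hfs⟩
    rw [hS0, Finset.mem_filter]
    have h1 := h.le_add s f
    rw [add_comm s f] at h1
    exact ⟨hs, by omega⟩
  have hne : S'.Nonempty := by
    obtain ⟨s, hs, _⟩ := hS3' 0 h.zero (by rw [h.N0]; exact Nat.zero_le _)
    exact ⟨s, hs⟩
  have hex : ∀ (y : G) (s : S0), ∃ t : S', y ∈ K → N (mul y s + t) ≤ C := by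
    intro y s
    by_cases hy : y ∈ K
    · obtain ⟨t, ht, h1⟩ := hS3' (mul y s) (h.mul_mem y hy _ (hSK s s.2).1) (by
        have h2 := h.nrm hy (hSK s s.2).1
        have h3 := h.mono (hSK s s.2).2
        omega)
      exact ⟨⟨t, ht⟩, fun _ => h1⟩
    · exact ⟨⟨_, hne.choose_spec⟩, fun h0 => absurd h0 hy⟩
  choose φ hφ using hex
  have hcard : Fintype.card (S0 → S') ≤ β b' ^ β b := by
    rw [Fintype.card_fun, Fintype.card_coe, Fintype.card_coe]
    have h2 : S0.card ≤ β b := by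
      rw [hS0]
      exact (Finset.card_filter_le _ _).trans hS1
    have h3 : 1 ≤ β b' := (Finset.card_pos.mpr hne).trans_le hS1'
    exact (Nat.pow_le_pow_left hS1' _).trans (Nat.pow_le_pow_right h3 h2)
  refine h.few_values (g := N) (s := R) h.N0 ?_ hcard φ ?_ ha
  · intro a _ b _ hab
    have h1 := h.le_add b a
    rw [add_comm b a] at h1
    omega
  · intro y1 hy1 y2 hy2 he
    have h1 := h.close_of (b := b) (E := E) hy1 hy2 (fun f hf hfN => by
      obtain ⟨s, hs, hfs⟩ := hcov f hf hfN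
      have hsK := (hSK s hs).1
      have e1 := hφ y1 ⟨s, hs⟩ hy1
      have e2 := hφ y2 ⟨s, hs⟩ hy2
      have e3 : (φ y1 ⟨s, hs⟩ : G) = φ y2 ⟨s, hs⟩ := by rw [he]
      rw [e3] at e1
      have e4 := h.lip hy1 hf hsK
      have e5 := h.lip hy2 hf hsK
      have e6 := h.mono hfs
      have e7 := h.Nadd (mul y1 s + φ y2 ⟨s, hs⟩) (mul y2 s + φ y2 ⟨s, hs⟩)
      have e8 : mul y1 s + φ y2 ⟨s, hs⟩ + (mul y2 s + φ y2 ⟨s, hs⟩) = mul y1 s + mul y2 s := by
        rw [add_add_add_comm, h.two, add_zero]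
      rw [e8] at e7
      have e9 := h.Nadd (mul y1 f + mul y1 s) (mul y2 f + mul y2 s)
      have e10 := h.le_add (mul y1 f + mul y2 f) (mul y1 s + mul y2 s)
      rw [add_add_add_comm] at e10
      dsimp only at e1 e2
      omega) (by omega)
    have h2 := h.le_add y2 y1
    rw [add_comm y2 y1] at h2
    omega

end Pool.Agent.helper35.MF
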