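import Pool.Agent.helper53.MF9.LRows
import Pool.Agent.helper63.MF.PreIn

set_option autoImplicit false

/-!
# MP_141f81, Section 9: the fields `add`, `cV`, `cola …` of `RowsIn` from `LOut`
-/

namespace Pool.Agent.helper35.MF

open Finset Pool.Agent.MF
open Pool.Agent.MF.LemT (nr)
open Pool.Agent.helper63.MF (Colr)
open Pool.Agent.helper53.MF9

variable {N : Type} [AddCommGroup N] [Fintype N] [DecidableEq N] {M : Mat N} {n C : ℕ} {Lm : Finset N}
  {S2 : Finset (N → Fin n)} {U : Type} [AddCommGroup U] [Fintype U] [DecidableEq U]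
  {π : N → Fin n → U} {A : N → Fin n → AddMonoid.End U}
  {L : U → AddMonoid.End U} {VV : Finset (AddMonoid.End U)} {ν : N → Fin n → AddMonoid.End U}
  {U0 : AddSubgroup U}

/-- the colours of the letters of one role -/
theorem colr_of (h : LOut M Lm S2 π A C L VV ν U0) {v : N} (hv : v ∈ Lm) (h0 : v ≠ 0) :
    Colr C L VV S2 (fun ρ => π v (ρ v)) (fun ρ => A v (ρ v)) := by
  intro ρ hρ
  refine ⟨ν v (ρ v), h.mem ρ hρ v hv h0, ?_⟩
  have h1 := h.op ρ hρ v hv h0
  rwa [add_assoc] at h1

end Pool.Agent.helper35.MF
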