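import Pool.Agent.helper35.MF.Conn

set_option autoImplicit false

/-!
# MP_141f81: one absolute scale is enough

`D` is a set of short words in letters `x` with `sy x ∈ D`, every element of which is a word of at most `l1` letters plus at most `l0` elements of a
set `F` of words of at most `l1` letters; `D` is closed under addition up to an error in `Ball T κ` and exactly closed
under addition of elements of `F`.  Then two elements of `D` at distance `b` are joined by a chain in `D` of length at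
most `H b l0 l1` with steps in `Ball T ((l1 + 6) * κ + 1)`: the scale does not depend on `l0`.  So if the balls of this
one radius in `D` have at most `M` points, then the balls of radius `b` have at most `M ^ H b l0 l1` points.
-/

namespace Pool.Agent.helper35.MF

/-! ### chains of bounded length -/

/-- `a` and `b` are joined by a chain of length at most `k` -/
def Rc {α : Type*} (r : α → α → Prop) : ℕ → α → α → Prop
  | 0, a, b => a = b
  | k + 1, a, b => ∃ c, (a = c ∨ r a c ∨ r c a) ∧ Rc r k c b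

section

variable {α : Type*} {r : α → α → Prop}

theorem Rc.refl (k : ℕ) (a : α) : Rc r k a a := by
  induction k with
  | zero => rfl
  | succ k ih => exact ⟨a, Or.inl rfl, ih⟩

theorem Rc.mono {k m : ℕ} (hkm : k ≤ m) {a b : α} (h : Rc r k a b) : Rc r m a b := by
  induction k generalizing a m with
  | zero =>
    obtain rfl : a = b := h
    exact Rc.refl m a
  | succ k ih =>
    obtain ⟨c, h1, h2⟩ := h
    obtain ⟨m, rfl⟩ : ∃ m', m = m' + 1 := ⟨m - 1, by omega⟩
    exact ⟨c, h1, ih (by omega) h2⟩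

theorem Rc.trans {k m : ℕ} {a b c : α} (h : Rc r k a b) (h' : Rc r m b c) : Rc r (k + m) a c := by
  induction k generalizing a with
  | zero =>
    obtain rfl : a = b := h
    rwa [Nat.zero_add]
  | succ k ih =>
    obtain ⟨d, h1, h2⟩ := h
    rw [Nat.succ_add]
    exact ⟨d, h1, ih h2⟩

theorem Rc.single {a b : α} (h : r a b) : Rc r 1 a b := ⟨b, Or.inr (Or.inl h), rfl⟩

theorem Rc.single' {a b : α} (h : r b a) : Rc r 1 a b := ⟨b, Or.inr (Or.inr h), rfl⟩

theorem Rc.symm {k : ℕ} {a b : α} (h : Rc r k a b) : Rc r k b a := by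
  induction k generalizing a with
  | zero =>
    obtain rfl : a = b := h
    rfl
  | succ k ih =>
    obtain ⟨c, h1, h2⟩ := h
    refine (ih h2).trans (m := 1) ?_
    rcases h1 with rfl | h1 | h1
    · exact Rc.refl 1 _
    · exact Rc.single' h1
    · exact Rc.single h1

/-- chains are mapped to chains -/
theorem Rc.map {β : Type*} {s : β → β → Prop} {m k : ℕ} (f : α → β) (hf : ∀ a b, r a b → Rc s m (f a) (f b))
    {a b : α} (h : Rc r k a b) : Rc s (m * k) (f a) (f b) := by
  induction k generalizing a with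
  | zero =>
    obtain rfl : a = b := h
    exact Rc.refl _ _
  | succ k ih =>
    obtain ⟨c, h1, h2⟩ := h
    have h3 : Rc s m (f a) (f c) := by
      rcases h1 with rfl | h1 | h1
      · exact Rc.refl _ _
      · exact hf _ _ h1
      · exact (hf _ _ h1).symm
    have h4 := h3.trans (ih h2)
    rwa [show m * (k + 1) = m + m * k by ring]

/-- counting the ends of chains -/
theorem Rc.count {s : Set α} {M : ℕ} (hsym : ∀ a b, r a b → r b a) (hrefl : ∀ a ∈ s, r a a)
    (hs : ∀ a b, r a b → a ∈ s) (hfin : ∀ a ∈ s, {b | r a b}.Finite) (hcard : ∀ a ∈ s, {b | r a b}.ncard ≤ M)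
    (k : ℕ) : ∀ a ∈ s, {b | Rc r k a b}.Finite ∧ {b | Rc r k a b}.ncard ≤ M ^ k := by
  classical
  induction k with
  | zero =>
    intro a _
    have h1 : {b | Rc r 0 a b} = {a} := by
      ext b
      exact ⟨fun h => (show a = b from h).symm, fun h => (show b = a from h).symm⟩
    rw [h1]
    exact ⟨Set.finite_singleton a, by rw [Set.ncard_singleton, pow_zero]⟩
  | succ k ih =>
    intro a ha
    have hs' : ∀ c, r a c → c ∈ s := fun c hc => hs c a (hsym _ _ hc)
    have h1 : {b | Rc r (k + 1) a b} ⊆ ((hfin a ha).toFinset.biUnion fun c =>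
        if hc : c ∈ s then (ih c hc).1.toFinset else ∅ : Finset α) := by
      rintro b ⟨c, h1, h2⟩
      have h3 : r a c := by
        rcases h1 with rfl | h1 | h1
        · exact hrefl _ ha
        · exact h1
        · exact hsym _ _ h1
      rw [Finset.mem_coe, Finset.mem_biUnion]
      refine ⟨c, (hfin a ha).mem_toFinset.mpr h3, ?_⟩
      rw [dif_pos (hs' c h3), Set.Finite.mem_toFinset]
      exact h2
    refine ⟨(Finset.finite_toSet _).subset h1, ?_⟩
    refine (Set.ncard_le_ncard h1 (Finset.finite_toSet _)).trans ?_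
    rw [Set.ncard_coe_finset]
    refine (Finset.card_biUnion_le_card_mul _ _ (M ^ k) ?_).trans ?_
    · intro c hc
      have hc' : c ∈ s := hs' c ((hfin a ha).mem_toFinset.mp hc)
      rw [dif_pos hc', ← Set.ncard_eq_toFinset_card _ (ih c hc').1]
      exact (ih c hc').2
    · rw [← Set.ncard_eq_toFinset_card _ (hfin a ha), pow_succ']
      exact Nat.mul_le_mul_right _ (hcard a ha)

end

/-! ### the structure -/

section

variable {X : Type} (T : Set (X →₀ ZMod 2)) (D F : Set (X →₀ ZMod 2)) (κ l1 l0 : ℕ)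

/-- `D` is closed under addition up to errors in `Ball T κ` and its elements are words of length at most `l1` plus at
most `l0` elements of `F` -/
structure CoarseF : Prop where
  line : ∀ t ∈ T, ∃ l : List X, l.length ≤ l1 ∧ (∀ x ∈ l, sy x ∈ D) ∧ t = wd l
  zero : (0 : X →₀ ZMod 2) ∈ D
  add : ∀ u ∈ D, ∀ v ∈ D, ∃ w ∈ D, u + v + w ∈ Ball T κ
  short : ∀ f ∈ F, f ∈ D ∧ ∃ l : List X, l.length ≤ l1 ∧ (∀ x ∈ l, sy x ∈ D) ∧ f = wd l
  addF : ∀ u ∈ D, ∀ f ∈ F, u + f ∈ D
  word : ∀ u ∈ D, ∃ l : List X, l.length ≤ l1 ∧ (∀ x ∈ l, sy x ∈ D) ∧ wd l ∈ D ∧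
    ∃ fs : List (X →₀ ZMod 2), fs.length ≤ l0 ∧ (∀ f ∈ fs, f ∈ F) ∧ u = wd l + fs.sum

end

/-- cost of moving a letter -/
def cM : ℕ → ℕ
  | 0 => 0
  | m + 1 => 3 * cM m + 5

theorem cM_mono {m m' : ℕ} (h : m ≤ m') : cM m ≤ cM m' := by
  induction m' with
  | zero =>
    obtain rfl : m = 0 := by omega
    exact le_rfl
  | succ m' ih =>
    rcases Nat.lt_or_ge m' m with h1 | h1
    · obtain rfl : m = m' + 1 := by omega
      exact le_rfl
    · have := ih h1
      rw [show cM (m' + 1) = 3 * cM m' + 5 from rfl]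
      omega

/-- cost of a null word -/
def cZ : ℕ → ℕ
  | 0 => 0
  | m + 1 => 3 * cM m + 6 + cZ m

/-- cost of splitting a word -/
def cA : ℕ → ℕ
  | 0 => 2
  | m + 1 => 3 * cA m + 3

theorem cA_mono {m m' : ℕ} (h : m ≤ m') : cA m ≤ cA m' := by
  induction m' with
  | zero =>
    obtain rfl : m = 0 := by omega
    exact le_rfl
  | succ m' ih =>
    rcases Nat.lt_or_ge m' m with h1 | h1
    · obtain rfl : m = m' + 1 := by omega
      exact le_rfl
    · have := ih h1
      rw [show cA (m' + 1) = 3 * cA m' + 3 from rfl]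
      omega

/-- cost of lines -/
def cL (l1 : ℕ) : ℕ → ℕ
  | 0 => 0
  | b + 1 => cA l1 + (3 * cL l1 b + 6)

theorem cL_mono (l1 : ℕ) {m m' : ℕ} (h : m ≤ m') : cL l1 m ≤ cL l1 m' := by
  induction m' with
  | zero =>
    obtain rfl : m = 0 := by omega
    exact le_rfl
  | succ m' ih =>
    rcases Nat.lt_or_ge m' m with h1 | h1
    · obtain rfl : m = m' + 1 := by omega
      exact le_rfl
    · have := ih h1
      rw [show cL l1 (m' + 1) = cA l1 + (3 * cL l1 m' + 6) from rfl]
      omega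

/-- cost of writing an element of `D` as a word -/
def cW (l1 : ℕ) : ℕ → ℕ
  | 0 => 1
  | k + 1 => 3 * cW l1 k + 7 + cA l1

theorem cW_mono (l1 : ℕ) {m m' : ℕ} (h : m ≤ m') : cW l1 m ≤ cW l1 m' := by
  induction m' with
  | zero =>
    obtain rfl : m = 0 := by omega
    exact le_rfl
  | succ m' ih =>
    rcases Nat.lt_or_ge m' m with h1 | h1
    · obtain rfl : m = m' + 1 := by omega
      exact le_rfl
    · have := ih h1
      rw [show cW l1 (m' + 1) = 3 * cW l1 m' + 7 + cA l1 from rfl]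
      omega

/-- the length of the words of `D` -/
def wl (l1 l0 : ℕ) : ℕ := l1 + l0 * l1

/-- the chain length -/
def HH (b l0 l1 : ℕ) : ℕ :=
  3 * (cZ (2 * wl l1 l0 + b * l1) + 2 * (4 * cA (wl l1 l0)) + 12 * cW l1 l0 + 9 * cL l1 b + 30) + 20

section

variable {X : Type} {T : Set (X →₀ ZMod 2)} {D F : Set (X →₀ ZMod 2)} {κ l1 l0 : ℕ}
  (h : CoarseF T D F κ l1 l0)
include h

/-- the addition of `D` -/
noncomputable def CoarseF.op (u v : D) : D :=
  ⟨(h.add u u.2 v v.2).choose, (h.add u u.2 v v.2).choose_spec.1⟩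

theorem CoarseF.op_spec (u v : D) : (u : X →₀ ZMod 2) + v + h.op u v ∈ Ball T κ :=
  (h.add u u.2 v v.2).choose_spec.2

/-- zero -/
def CoarseF.z : D := ⟨0, h.zero⟩

open Classical in
/-- the symbols in `D` -/
noncomputable def CoarseF.s (x : X) : D := if hx : sy x ∈ D then ⟨sy x, hx⟩ else h.z

theorem CoarseF.s_eq {x : X} (hx : sy x ∈ D) : (h.s x : X →₀ ZMod 2) = sy x := by
  rw [CoarseF.s, dif_pos hx]

/-- evaluation of a word in `D` -/
noncomputable def CoarseF.ev : List X → D
  | [] => h.z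
  | x :: l => h.op (h.s x) (CoarseF.ev l)

/-- law pairs -/
inductive CoarseF.Law : D → D → Prop
  | assoc (x y z : D) : CoarseF.Law (h.op (h.op x y) z) (h.op x (h.op y z))
  | comm (x y : D) : CoarseF.Law (h.op x y) (h.op y x)
  | self (x : D) : CoarseF.Law (h.op x x) h.z
  | zero (x : D) : CoarseF.Law (h.op x h.z) x
  | line (l : List X) (hl : l.length ≤ l1) (hL : ∀ x ∈ l, sy x ∈ D) (ht : wd l ∈ T) :
      CoarseF.Law (h.ev l) h.z
  | word (u : D) (l : List X) (hl : l.length ≤ l1) (hL : ∀ x ∈ l, sy x ∈ D)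
      (hu : (u : X →₀ ZMod 2) = wd l) : CoarseF.Law u (h.ev l)
  | addF (u v f : D) (hf : (f : X →₀ ZMod 2) ∈ F) (huv : (v : X →₀ ZMod 2) = u + f) :
      CoarseF.Law v (h.op u f)

/-- edges -/
def CoarseF.Edge (u v : D) : Prop := h.Law u v ∨ ∃ a b t, h.Law a b ∧ u = h.op a t ∧ v = h.op b t

theorem CoarseF.law1 {u v : D} (hl : h.Law u v) : Rc h.Edge 1 u v := Rc.single (Or.inl hl)

theorem CoarseF.law1' {u v : D} (hl : h.Law u v) : Rc h.Edge 1 v u := Rc.single' (Or.inl hl)

theorem CoarseF.edge_op {u v : D} (he : h.Edge u v) (t : D) : Rc h.Edge 3 (h.op u t) (h.op v t) := by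
  rcases he with he | ⟨a, b, s, hl, rfl, rfl⟩
  · exact Rc.mono (k := 1) (by omega) (Rc.single (Or.inr ⟨u, v, t, he, rfl, rfl⟩))
  · refine Rc.trans (k := 1) (m := 2) (h.law1 (CoarseF.Law.assoc a s t)) ?_
    refine Rc.trans (k := 1) (m := 1) (Rc.single (Or.inr ⟨a, b, h.op s t, hl, rfl, rfl⟩)) ?_
    exact h.law1' (CoarseF.Law.assoc b s t)

theorem CoarseF.rc_op {k : ℕ} {u v : D} (he : Rc h.Edge k u v) (t : D) :
    Rc h.Edge (3 * k) (h.op u t) (h.op v t) :=
  he.map (fun u => h.op u t) fun _ _ hab => h.edge_op hab t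

theorem CoarseF.rc_comm (u t : D) : Rc h.Edge 1 (h.op u t) (h.op t u) := h.law1 (CoarseF.Law.comm u t)

theorem CoarseF.rc_op' {k : ℕ} {u v : D} (he : Rc h.Edge k u v) (t : D) :
    Rc h.Edge (3 * k + 2) (h.op t u) (h.op t v) := by
  have h1 := ((h.rc_comm t u).trans (h.rc_op he t)).trans (h.rc_comm v t)
  exact h1.mono (by omega)

theorem CoarseF.rc_op2 {k m : ℕ} {u v u' v' : D} (h1 : Rc h.Edge k u v) (h2 : Rc h.Edge m u' v') :
    Rc h.Edge (3 * k + 3 * m + 2) (h.op u u') (h.op v v') :=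
  ((h.rc_op h1 u').trans (h.rc_op' h2 v)).mono (by omega)

theorem CoarseF.rc_swap (a b c : D) : Rc h.Edge 3 (h.op a (h.op b c)) (h.op b (h.op a c)) := by
  refine Rc.trans (k := 1) (m := 2) (h.law1' (CoarseF.Law.assoc a b c)) ?_
  refine Rc.trans (k := 1) (m := 1) (Rc.single (Or.inr ⟨_, _, c, CoarseF.Law.comm a b, rfl, rfl⟩)) ?_
  exact h.law1 (CoarseF.Law.assoc b a c)

theorem CoarseF.rc_zero (a : D) : Rc h.Edge 1 (h.op a h.z) a := h.law1 (CoarseF.Law.zero a)

theorem CoarseF.rc_zero' (a : D) : Rc h.Edge 2 (h.op h.z a) a :=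
  Rc.trans (k := 1) (m := 1) (h.rc_comm h.z a) (h.rc_zero a)

theorem CoarseF.rc_cancel (a c : D) : Rc h.Edge 4 (h.op a (h.op a c)) c := by
  refine Rc.trans (k := 1) (m := 3) (h.law1' (CoarseF.Law.assoc a a c)) ?_
  refine Rc.trans (k := 1) (m := 2) (Rc.single (Or.inr ⟨_, _, c, CoarseF.Law.self a, rfl, rfl⟩)) ?_
  exact h.rc_zero' c

theorem CoarseF.rc_move (x : X) (A B : List X) :
    Rc h.Edge (cM A.length) (h.ev (x :: (A ++ B))) (h.ev (A ++ x :: B)) := by
  induction A with
  | nil => exact Rc.refl _ _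
  | cons a A ih =>
    have h1 := (h.rc_swap (h.s x) (h.s a) (h.ev (A ++ B))).trans (h.rc_op' ih (h.s a))
    exact h1.mono (by rw [List.length_cons, show cM (A.length + 1) = 3 * cM A.length + 5 from rfl]; omega)

theorem CoarseF.rc_null (m : ℕ) : ∀ L : List X, L.length ≤ m → wd L = 0 → Rc h.Edge (cZ m) (h.ev L) h.z := by
  induction m with
  | zero =>
    intro L hL _
    obtain rfl := List.length_eq_zero_iff.mp (Nat.le_zero.mp hL)
    exact Rc.refl _ _
  | succ m ih =>
    intro L hL h0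
    match L, hL, h0 with
    | [], _, _ => exact Rc.refl _ _
    | x :: L, hL, h0 =>
      classical
      have hx : x ∈ L := by
        by_contra hx
        have h1 : ∀ L' : List X, x ∉ L' → (wd L') x = 0 := by
          intro L' hL'
          induction L' with
          | nil => rfl
          | cons y L' ih' =>
            rw [wd, List.map_cons, List.sum_cons, Finsupp.add_apply]
            rw [wd] at ih'
            rw [ih' fun hm => hL' (List.mem_cons_of_mem _ hm), add_zero, sy, Finsupp.single_apply, if_neg]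
            rintro rfl
            exact hL' List.mem_cons_self
        have h2 : (wd (x :: L)) x = 1 := by
          rw [wd, List.map_cons, List.sum_cons, Finsupp.add_apply]
          have h3 := h1 L hx
          rw [wd] at h3
          rw [h3, add_zero, sy, Finsupp.single_eq_same]
        rw [h0] at h2
        exact zero_ne_one h2
      obtain ⟨A, B, rfl⟩ := List.append_of_mem hx
      have hlen : (A ++ x :: B).length = (A ++ B).length + 1 := by
        rw [List.length_append, List.length_append, List.length_cons]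
        omega
      have hL' : (A ++ B).length + 1 ≤ m := by
        rw [List.length_cons, hlen] at hL
        omega
      have hA : A.length ≤ m := by
        rw [List.length_append] at hL'
        omega
      have h3 : wd (A ++ B) = 0 := by
        have e1 : wd (x :: (A ++ x :: B)) = sy x + (wd A + (sy x + wd B)) := by
          simp only [wd, List.map_cons, List.sum_cons, List.map_append, List.sum_append]
        have e2 : wd (A ++ B) = wd A + wd B := by
          simp only [wd, List.map_append, List.sum_append]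
        rw [e2, ← h0, e1]
        have e3 := two_eq (sy x)
        calc wd A + wd B = (sy x + sy x) + (wd A + wd B) := by rw [e3, zero_add]
          _ = _ := by abel
      have h4 := (h.rc_op' (h.rc_move x A B).symm (h.s x)).trans (h.rc_cancel (h.s x) (h.ev (A ++ B)))
      have h5 := h4.trans (ih (A ++ B) (by omega) h3)
      refine h5.mono ?_
      have := cM_mono hA
      rw [show cZ (m + 1) = 3 * cM m + 6 + cZ m from rfl]
      omega

theorem CoarseF.rc_append (A B : List X) :
    Rc h.Edge (cA A.length) (h.ev (A ++ B)) (h.op (h.ev A) (h.ev B)) := by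
  induction A with
  | nil => exact (h.rc_zero' (h.ev B)).symm
  | cons a A ih =>
    have h1 := (h.rc_op' ih (h.s a)).trans (h.law1' (CoarseF.Law.assoc (h.s a) (h.ev A) (h.ev B)))
    exact h1.mono (by rw [List.length_cons, show cA (A.length + 1) = 3 * cA A.length + 3 from rfl])

theorem CoarseF.rc_lines (ls : List (List X))
    (hls : ∀ l ∈ ls, l.length ≤ l1 ∧ (∀ x ∈ l, sy x ∈ D) ∧ wd l ∈ T) :
    Rc h.Edge (cL l1 ls.length) (h.ev ls.flatten) h.z := by
  induction ls with
  | nil => exact Rc.refl _ _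
  | cons l ls ih =>
    have h1 := hls l List.mem_cons_self
    have h2 := ih fun l' hl' => hls l' (List.mem_cons_of_mem _ hl')
    have h3 := h.rc_append l ls.flatten
    have h4 := h.rc_op2 (h.law1 (CoarseF.Law.line l h1.1 h1.2.1 h1.2.2)) h2
    have h5 := (h3.trans h4).trans (h.rc_zero h.z)
    rw [List.flatten_cons]
    refine h5.mono ?_
    have := cA_mono h1.1
    rw [List.length_cons, show cL l1 (ls.length + 1) = cA l1 + (3 * cL l1 ls.length + 6) from rfl]
    omega

theorem CoarseF.rc_word {l : List X} (hl : l.length ≤ l1) (hL : ∀ x ∈ l, sy x ∈ D) (hD : wd l ∈ D)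
    (fs : List (X →₀ ZMod 2))
    (hfs : ∀ f ∈ fs, f ∈ F) : ∃ (hm : wd l + fs.sum ∈ D) (l' : List X), l'.length ≤ l1 + fs.length * l1 ∧
      wd l' = wd l + fs.sum ∧ Rc h.Edge (cW l1 fs.length) (⟨wd l + fs.sum, hm⟩ : D) (h.ev l') := by
  induction fs with
  | nil =>
    have hm : wd l + ([] : List (X →₀ ZMod 2)).sum ∈ D := by rwa [List.sum_nil, add_zero]
    exact ⟨hm, l, by omega, by rw [List.sum_nil, add_zero],
      h.law1 (CoarseF.Law.word _ l hl hL (by
        change wd l + ([] : List (X →₀ ZMod 2)).sum = wd l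
        rw [List.sum_nil, add_zero]))⟩
  | cons f fs ih =>
    obtain ⟨hm, l', h1, h2, h3⟩ := ih fun f' hf' => hfs f' (List.mem_cons_of_mem _ hf')
    have hf := hfs f List.mem_cons_self
    obtain ⟨hfD, lf, h4, hfL, h5⟩ := h.short f hf
    have e1 : wd l + (f :: fs).sum = wd l + fs.sum + f := by
      rw [List.sum_cons]; abel
    have hm' : wd l + (f :: fs).sum ∈ D := by
      rw [e1]
      exact h.addF _ hm f hf
    refine ⟨hm', lf ++ l', ?_, ?_, ?_⟩
    · rw [List.length_append, List.length_cons, Nat.succ_mul]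
      omega
    · have e2 : wd (lf ++ l') = wd lf + wd l' := by
        simp only [wd, List.map_append, List.sum_append]
      rw [e2, h2, ← h5, List.sum_cons]
      abel
    · have f1 : Rc h.Edge 1 (⟨wd l + (f :: fs).sum, hm'⟩ : D) (h.op ⟨wd l + fs.sum, hm⟩ ⟨f, hfD⟩) :=
        h.law1 (CoarseF.Law.addF _ _ _ hf e1)
      have f2 := h.rc_comm ⟨wd l + fs.sum, hm⟩ ⟨f, hfD⟩
      have f3 : Rc h.Edge 1 (⟨f, hfD⟩ : D) (h.ev lf) := h.law1 (CoarseF.Law.word _ lf h4 hfL h5)
      have f4 := h.rc_op2 f3 h3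
      have f5 := (((f1.trans f2).trans f4)).trans (h.rc_append lf l').symm
      refine f5.mono ?_
      have := cA_mono h4
      rw [List.length_cons, show cW l1 (fs.length + 1) = 3 * cW l1 fs.length + 7 + cA l1 from rfl]
      omega

theorem CoarseF.rc_word' (u : D) : ∃ l' : List X, l'.length ≤ wl l1 l0 ∧ (u : X →₀ ZMod 2) = wd l' ∧
    Rc h.Edge (cW l1 l0) u (h.ev l') := by
  obtain ⟨l, h1, hL, h2, fs, h3, h4, h5⟩ := h.word u u.2
  obtain ⟨hm, l', h6, h7, h8⟩ := h.rc_word h1 hL h2 fs h4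
  have e1 : u = (⟨wd l + fs.sum, hm⟩ : D) := Subtype.ext h5
  refine ⟨l', h6.trans ?_, by rw [h7, ← h5], ?_⟩
  · have := Nat.mul_le_mul_right l1 h3
    rw [wl]
    omega
  · rw [e1]
    exact h8.mono (cW_mono l1 h3)

theorem CoarseF.rc_ball {b : ℕ} (u v : D) (huv : (u : X →₀ ZMod 2) + v ∈ Ball T b) :
    Rc h.Edge (HH b l0 l1) u v := by
  obtain ⟨lu, hu1, hu2, hu3⟩ := h.rc_word' u
  obtain ⟨lv, hv1, hv2, hv3⟩ := h.rc_word' v
  obtain ⟨ts, ht1, ht2, ht3⟩ := huv
  have h1 : ∀ ts : List (X →₀ ZMod 2), (∀ x ∈ ts, x ∈ T) → ∃ ls : List (List X), ls.length = ts.length ∧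
      (∀ l ∈ ls, l.length ≤ l1 ∧ (∀ x ∈ l, sy x ∈ D) ∧ wd l ∈ T) ∧ wd ls.flatten = ts.sum ∧
      ls.flatten.length ≤ ts.length * l1 := by
    intro ts hts
    induction ts with
    | nil => exact ⟨[], rfl, by simp, rfl, by simp⟩
    | cons t ts ih =>
      obtain ⟨ls, i1, i2, i3, i4⟩ := ih fun x hx => hts x (List.mem_cons_of_mem _ hx)
      obtain ⟨l, j1, j3, j2⟩ := h.line t (hts t List.mem_cons_self)
      refine ⟨l :: ls, by rw [List.length_cons, List.length_cons, i1], ?_, ?_, ?_⟩
      · intro l' hl'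
        rcases List.mem_cons.mp hl' with rfl | hl'
        · exact ⟨j1, j3, j2 ▸ hts t List.mem_cons_self⟩
        · exact i2 l' hl'
      · rw [List.flatten_cons, List.sum_cons, ← i3, j2]
        simp only [wd, List.map_append, List.sum_append]
      · rw [List.flatten_cons, List.length_append, List.length_cons, Nat.succ_mul]
        omega
  obtain ⟨ls, i1, i2, i3, i4⟩ := h1 ts ht2
  have hlen : (lu ++ (lv ++ ls.flatten)).length ≤ 2 * wl l1 l0 + b * l1 := by
    rw [List.length_append, List.length_append]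
    have := Nat.mul_le_mul_right l1 ht1
    omega
  have hnull : wd (lu ++ (lv ++ ls.flatten)) = 0 := by
    have e1 : wd (lu ++ (lv ++ ls.flatten)) = wd lu + (wd lv + wd ls.flatten) := by
      simp only [wd, List.map_append, List.sum_append]
    rw [e1, i3, ht3, ← hu2, ← hv2, ← add_assoc]
    exact two_eq _
  have g1 := h.rc_null _ _ hlen hnull
  have g2 := h.rc_append lu (lv ++ ls.flatten)
  have g3 := h.rc_append lv ls.flatten
  have g4 := h.rc_lines ls i2
  have g5 := h.rc_op2 hv3.symm g4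
  have g6 := h.rc_op2 hu3.symm ((g3.trans g5).trans (h.rc_zero v))
  have g7 := (g1.symm.trans (g2.trans g6)).symm
  -- `op u v` is joined to zero
  have k1 := (h.law1' (CoarseF.Law.self v))
  have k2 := ((h.rc_zero u).symm).trans (h.rc_op' k1 u)
  have k3 := k2.trans (h.law1' (CoarseF.Law.assoc u v v))
  have k4 := (k3.trans (h.rc_op g7 v)).trans (h.rc_zero' v)
  refine k4.mono ?_
  have c1 := cA_mono hu1
  have c2 := cA_mono hv1
  have c3 := cL_mono l1 (show ls.length ≤ b by omega)
  rw [HH]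
  omega

/-! ### sizes -/

theorem CoarseF.ev_ball (l : List X) (hL : ∀ x ∈ l, sy x ∈ D) : wd l + h.ev l ∈ Ball T (l.length * κ) := by
  induction l with
  | nil =>
    have h1 : wd ([] : List X) + h.ev [] = 0 := by
      change (0 : X →₀ ZMod 2) + 0 = 0
      rw [add_zero]
    rw [h1]
    exact Ball.zero _ _
  | cons x l ih =>
    have h1 : wd (x :: l) = sy x + wd l := by
      rw [wd, List.map_cons, List.sum_cons]
    have h2 := h.op_spec (h.s x) (h.ev l)
    have h3 : wd (x :: l) + h.ev (x :: l) = (wd l + h.ev l) +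
        ((h.s x : X →₀ ZMod 2) + h.ev l + h.op (h.s x) (h.ev l)) := by
      rw [h1]
      change sy x + wd l + (h.op (h.s x) (h.ev l) : X →₀ ZMod 2) =
        (wd l + h.ev l) + ((h.s x : X →₀ ZMod 2) + h.ev l + h.op (h.s x) (h.ev l))
      rw [h.s_eq (hL x List.mem_cons_self)]
      have h4 := two_eq (h.ev l : X →₀ ZMod 2)
      calc sy x + wd l + (h.op (h.s x) (h.ev l) : X →₀ ZMod 2)
          = sy x + wd l + (h.op (h.s x) (h.ev l) : X →₀ ZMod 2) +
            ((h.ev l : X →₀ ZMod 2) + h.ev l) := by rw [h4, add_zero]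
        _ = _ := by abel
    rw [h3, List.length_cons, Nat.succ_mul]
    exact ball_add (ih fun y hy => hL y (List.mem_cons_of_mem _ hy)) h2

theorem CoarseF.law_ball {u v : D} (hl : h.Law u v) :
    (u : X →₀ ZMod 2) + v ∈ Ball T ((l1 + 4) * κ + 1) := by
  have hz : ∀ {r : ℕ}, r ≤ (l1 + 4) * κ + 1 → ∀ {g : X →₀ ZMod 2}, g ∈ Ball T r →
      g ∈ Ball T ((l1 + 4) * κ + 1) := fun hr _ hg => Ball.mono hr hg
  have h4 : (l1 + 4) * κ = l1 * κ + 4 * κ := by ring
  induction hl with
  | assoc x y z =>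
    have e1 := h.op_spec x y
    have e2 := h.op_spec (h.op x y) z
    have e3 := h.op_spec y z
    have e4 := h.op_spec x (h.op y z)
    have e5 := ball_add (ball_add e1 e2) (ball_add e3 e4)
    refine hz (r := κ + κ + (κ + κ)) (by omega) ?_
    convert e5 using 1
    have f1 := two_eq (h.op x y : X →₀ ZMod 2)
    have f2 := two_eq (h.op y z : X →₀ ZMod 2)
    have f3 := two_eq (x : X →₀ ZMod 2)
    have f4 := two_eq (y : X →₀ ZMod 2)
    have f5 := two_eq (z : X →₀ ZMod 2)
    calc (h.op (h.op x y) z : X →₀ ZMod 2) + h.op x (h.op y z)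
        = (h.op (h.op x y) z : X →₀ ZMod 2) + h.op x (h.op y z) +
          ((h.op x y : X →₀ ZMod 2) + h.op x y) + ((h.op y z : X →₀ ZMod 2) + h.op y z) +
          ((x : X →₀ ZMod 2) + x) + ((y : X →₀ ZMod 2) + y) + ((z : X →₀ ZMod 2) + z) := by
            rw [f1, f2, f3, f4, f5]; simp only [add_zero]
      _ = _ := by abel
  | comm x y =>
    have e1 := ball_add (h.op_spec x y) (h.op_spec y x)
    refine hz (r := κ + κ) (by omega) ?_
    convert e1 using 1
    have f3 := two_eq (x : X →₀ ZMod 2)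
    have f4 := two_eq (y : X →₀ ZMod 2)
    calc (h.op x y : X →₀ ZMod 2) + h.op y x
        = (h.op x y : X →₀ ZMod 2) + h.op y x + ((x : X →₀ ZMod 2) + x) +
          ((y : X →₀ ZMod 2) + y) := by rw [f3, f4]; simp only [add_zero]
      _ = _ := by abel
  | self x =>
    have e1 := h.op_spec x x
    refine hz (r := κ) (by omega) ?_
    convert e1 using 1
    rw [two_eq (x : X →₀ ZMod 2), zero_add]
    exact add_zero _
  | zero x =>
    have e1 := h.op_spec x h.z
    refine hz (r := κ) (by omega) ?_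
    convert e1 using 1
    change (h.op x h.z : X →₀ ZMod 2) + x = (x : X →₀ ZMod 2) + 0 + h.op x h.z
    rw [add_zero, add_comm]
  | line l hl hL ht =>
    have e1 := ball_add (h.ev_ball l hL) (Ball.one ht)
    have h5 := Nat.mul_le_mul_right κ hl
    refine hz (r := l.length * κ + 1) (by omega) ?_
    convert e1 using 1
    change (h.ev l : X →₀ ZMod 2) + 0 = wd l + h.ev l + wd l
    have f3 := two_eq (wd l)
    calc (h.ev l : X →₀ ZMod 2) + 0 = (h.ev l : X →₀ ZMod 2) + (wd l + wd l) := by rw [f3]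
      _ = _ := by abel
  | word u l hl hL hu =>
    have e1 := h.ev_ball l hL
    rw [← hu] at e1
    refine hz (r := l.length * κ) ?_ e1
    have := Nat.mul_le_mul_right κ hl
    omega
  | addF u v f hf huv =>
    have e1 := h.op_spec u f
    rw [← huv] at e1
    exact hz (r := κ) (by omega) e1

theorem CoarseF.edge_ball {u v : D} (he : h.Edge u v) :
    (u : X →₀ ZMod 2) + v ∈ Ball T ((l1 + 6) * κ + 1) := by
  have h4 : (l1 + 4) * κ + 1 + 2 * κ = (l1 + 6) * κ + 1 := by ring
  rcases he with he | ⟨a, b, t, hl, rfl, rfl⟩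
  · exact Ball.mono (by omega) (h.law_ball he)
  · have e1 := ball_add (h.law_ball hl) (ball_add (h.op_spec a t) (h.op_spec b t))
    rw [← h4, two_mul]
    convert e1 using 1
    have f3 := two_eq (a : X →₀ ZMod 2)
    have f4 := two_eq (b : X →₀ ZMod 2)
    have f5 := two_eq (t : X →₀ ZMod 2)
    calc (h.op a t : X →₀ ZMod 2) + h.op b t
        = (h.op a t : X →₀ ZMod 2) + h.op b t + ((a : X →₀ ZMod 2) + a) +
          ((b : X →₀ ZMod 2) + b) + ((t : X →₀ ZMod 2) + t) := by
            rw [f3, f4, f5]; simp only [add_zero]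
      _ = _ := by abel

end

/-- the steps -/
def Stp {X : Type} (T D : Set (X →₀ ZMod 2)) (R : ℕ) (a b : X →₀ ZMod 2) : Prop :=
  a ∈ D ∧ b ∈ D ∧ a + b ∈ Ball T R

section

variable {X : Type} {T : Set (X →₀ ZMod 2)} {D F : Set (X →₀ ZMod 2)} {κ l1 l0 : ℕ}
  (h : CoarseF T D F κ l1 l0)
include h

/-- **Chains of bounded length at one absolute scale.** -/
theorem CoarseF.chain_len {b : ℕ} {u v : X →₀ ZMod 2} (hu : u ∈ D) (hv : v ∈ D) (huv : u + v ∈ Ball T b) :
    Rc (Stp T D ((l1 + 6) * κ + 1)) (HH b l0 l1) u v := by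
  have h1 := h.rc_ball (⟨u, hu⟩ : D) ⟨v, hv⟩ huv
  have h2 := h1.map (s := Stp T D ((l1 + 6) * κ + 1)) (m := 1) (fun a : D => (a : X →₀ ZMod 2))
    fun a b hab => Rc.single ⟨a.2, b.2, h.edge_ball hab⟩
  rwa [one_mul] at h2

/-- **One absolute scale is enough.** -/
theorem CoarseF.ball_all {M : ℕ} (hM : ∀ u ∈ D, {v | v ∈ D ∧ u + v ∈ Ball T ((l1 + 6) * κ + 1)}.Finite ∧
    {v | v ∈ D ∧ u + v ∈ Ball T ((l1 + 6) * κ + 1)}.ncard ≤ M) (b : ℕ) :
    ∀ u ∈ D, {v | v ∈ D ∧ u + v ∈ Ball T b}.Finite ∧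
      {v | v ∈ D ∧ u + v ∈ Ball T b}.ncard ≤ M ^ HH b l0 l1 := by
  intro u hu
  have e1 : ∀ a ∈ D, {b | Stp T D ((l1 + 6) * κ + 1) a b} =
      {v | v ∈ D ∧ a + v ∈ Ball T ((l1 + 6) * κ + 1)} := by
    intro a ha
    ext v
    exact ⟨fun hv => hv.2, fun hv => ⟨ha, hv⟩⟩
  have h1 := Rc.count (r := Stp T D ((l1 + 6) * κ + 1)) (s := D) (M := M)
    (fun a b hab => ⟨hab.2.1, hab.1, by rw [add_comm b a]; exact hab.2.2⟩)
    (fun a ha => ⟨ha, ha, by rw [two_eq]; exact Ball.zero _ _⟩) (fun a b hab => hab.1)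
    (fun a ha => by rw [e1 a ha]; exact (hM a ha).1) (fun a ha => by rw [e1 a ha]; exact (hM a ha).2)
    (HH b l0 l1) u hu
  have h2 : {v | v ∈ D ∧ u + v ∈ Ball T b} ⊆ {v | Rc (Stp T D ((l1 + 6) * κ + 1)) (HH b l0 l1) u v} :=
    fun v hv => h.chain_len hu hv.1 hv.2
  exact ⟨h1.1.subset h2, (Set.ncard_le_ncard h2 h1.1).trans h1.2⟩

/-- chains between elements of one component -/
theorem CoarseF.chain {u v : X →₀ ZMod 2} (hu : u ∈ D) (hv : v ∈ D) (huv : u + v ∈ AddSubgroup.closure T) :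
    ∃ k, Rc (Stp T D ((l1 + 6) * κ + 1)) k u v := by
  have h1 : ∀ g ∈ AddSubgroup.closure T, ∃ b, g ∈ Ball T b := by
    intro g hg
    induction hg using AddSubgroup.closure_induction with
    | mem x hx => exact ⟨1, Ball.one hx⟩
    | zero => exact ⟨0, Ball.zero _ _⟩
    | add x y _ _ hx hy =>
      obtain ⟨b, hb⟩ := hx
      obtain ⟨b', hb'⟩ := hy
      exact ⟨b + b', ball_add hb hb'⟩
    | neg x _ hx =>
      obtain ⟨b, hb⟩ := hx
      exact ⟨b, by rwa [neg_eq_of_add_eq_zero_left (two_eq x)]⟩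
  obtain ⟨b, hb⟩ := h1 _ huv
  exact ⟨_, h.chain_len hu hv hb⟩

end

end Pool.Agent.helper35.MF
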