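import Pool.Agent.helper35.MF.Len
import Pool.Agent.helper35.MF.Ring

set_option autoImplicit false

/-!
# MP_141f81: the coarse group of one finite level

`NH T H g` is the area of `g` truncated at `H`, `Kc T D` the elements of `D` of finite area (the chain component of
zero).  A coarse set `CoarseF` all of whose balls of the absolute radius `(l1 + 6) * κ + 1` have at most `M` points
gives a `CGroup` with chains of bounded length.
-/

namespace Pool.Agent.helper35.MF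

section

variable {G : Type*} [AddCommGroup G] (T : Set G) (H : ℕ)

/-- the area truncated at `H` -/
noncomputable def NH (g : G) : ℕ := sInf {r : ℕ | g ∈ Ball T r ∨ r = H}

theorem NH_mem (g : G) : g ∈ Ball T (NH T H g) ∨ NH T H g = H :=
  Nat.sInf_mem (s := {r : ℕ | g ∈ Ball T r ∨ r = H}) ⟨H, Or.inr rfl⟩

theorem NH_le_top (g : G) : NH T H g ≤ H := Nat.sInf_le (Or.inr rfl)

variable {T H}

theorem NH_le {g : G} {r : ℕ} (h : g ∈ Ball T r) : NH T H g ≤ r := Nat.sInf_le (Or.inl h)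

theorem NH_ball {g : G} {r : ℕ} (hr : r < H) (h : NH T H g ≤ r) : g ∈ Ball T r := by
  rcases NH_mem T H g with h1 | h1
  · exact Ball.mono h h1
  · omega

theorem NH_le_iff {g : G} {r : ℕ} (hr : r < H) : NH T H g ≤ r ↔ g ∈ Ball T r := ⟨NH_ball hr, NH_le⟩

variable (T H)

theorem NH_zero : NH T H (0 : G) = 0 := Nat.le_zero.mp (NH_le (Ball.zero _ _))

theorem NH_add (a b : G) : NH T H (a + b) ≤ NH T H a + NH T H b := by
  rcases NH_mem T H a with h1 | h1
  · rcases NH_mem T H b with h2 | h2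
    · exact NH_le (ball_add h1 h2)
    · have := NH_le_top T H (a + b)
      omega
  · have := NH_le_top T H (a + b)
    omega

end

section

variable {X : Type} (T D : Set (X →₀ ZMod 2))

/-- the elements of `D` of finite area -/
def Kc : Set (X →₀ ZMod 2) := {u | u ∈ D ∧ ∃ b, u ∈ Ball T b}

/-- `H` is larger than all areas of sums of two elements of `Kc` -/
def Hok (R H : ℕ) : Prop := R < H ∧ ∀ u ∈ Kc T D, ∀ v ∈ Kc T D, ∃ r < H, u + v ∈ Ball T r

variable {T D}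

theorem exists_Hok (hD : D.Finite) (R : ℕ) : ∃ H0, ∀ H ≥ H0, Hok T D R H := by
  classical
  have h1 : ∀ u : X →₀ ZMod 2, ∃ b, u ∈ Kc T D → u ∈ Ball T b := by
    intro u
    by_cases hu : u ∈ Kc T D
    · obtain ⟨b, hb⟩ := hu.2
      exact ⟨b, fun _ => hb⟩
    · exact ⟨0, fun h0 => absurd h0 hu⟩
  choose b hb using h1
  refine ⟨R + 1 + 2 * ∑ u ∈ hD.toFinset, b u, fun H hH => ⟨by omega, fun u hu v hv => ?_⟩⟩
  refine ⟨b u + b v, ?_, ball_add (hb u hu) (hb v hv)⟩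
  have h2 := Finset.single_le_sum (f := b) (fun i _ => Nat.zero_le _) (hD.mem_toFinset.mpr hu.1)
  have h3 := Finset.single_le_sum (f := b) (fun i _ => Nat.zero_le _) (hD.mem_toFinset.mpr hv.1)
  omega

theorem Hok.ball {R H : ℕ} (h : Hok T D R H) {u v : X →₀ ZMod 2} (hu : u ∈ Kc T D) (hv : v ∈ Kc T D)
    {r : ℕ} (hr : NH T H (u + v) ≤ r) : u + v ∈ Ball T r := by
  obtain ⟨r', h1, h2⟩ := h.2 u hu v hv
  exact Ball.mono hr (NH_ball (by have := NH_le (H := H) h2; omega) le_rfl)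

variable {F : Set (X →₀ ZMod 2)} {κ l1 l0 : ℕ}

/-- chains in `Kc` of bounded length -/
theorem CoarseF.chain_Kc (h : CoarseF T D F κ l1 l0) {b : ℕ} {u v : X →₀ ZMod 2} (hu : u ∈ Kc T D)
    (hv : v ∈ Kc T D) (huv : u + v ∈ Ball T b) :
    ∃ w : ℕ → (X →₀ ZMod 2), w 0 = u ∧ w (HH b l0 l1) = v ∧ (∀ i, w i ∈ Kc T D) ∧
      ∀ i < HH b l0 l1, w i + w (i + 1) ∈ Ball T ((l1 + 6) * κ + 1) := by
  have h1 := h.chain_len hu.1 hv.1 huv
  have h2 : ∀ (k : ℕ) (u v : X →₀ ZMod 2), u ∈ Kc T D → v ∈ Kc T D →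
      Rc (Stp T D ((l1 + 6) * κ + 1)) k u v → ∃ w : ℕ → (X →₀ ZMod 2), w 0 = u ∧ w k = v ∧
      (∀ i, w i ∈ Kc T D) ∧ ∀ i < k, w i + w (i + 1) ∈ Ball T ((l1 + 6) * κ + 1) := by
    intro k
    induction k with
    | zero =>
      intro u v hu _ huv
      exact ⟨fun _ => u, rfl, huv, fun _ => hu, fun i hi => absurd hi (Nat.not_lt_zero i)⟩
    | succ k ih =>
      rintro u v hu hv ⟨c, h1, h2⟩
      have h3 : c ∈ D ∧ u + c ∈ Ball T ((l1 + 6) * κ + 1) := by
        rcases h1 with rfl | h1 | h1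
        · exact ⟨hu.1, by rw [two_eq]; exact Ball.zero _ _⟩
        · exact ⟨h1.2.1, h1.2.2⟩
        · exact ⟨h1.1, by rw [add_comm u]; exact h1.2.2⟩
      have hc : c ∈ Kc T D := by
        obtain ⟨b, hb⟩ := hu.2
        refine ⟨h3.1, b + ((l1 + 6) * κ + 1), ?_⟩
        have h4 := ball_add hb h3.2
        rwa [← add_assoc u u c, two_eq, zero_add] at h4
      obtain ⟨w, hw0, hwk, hwK, hw⟩ := ih c v hc hv h2
      refine ⟨fun i => match i with
        | 0 => u
        | i + 1 => w i, rfl, hwk, ?_, ?_⟩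
      · intro i
        rcases i with _ | i
        · exact hu
        · exact hwK i
      · intro i hi
        rcases i with _ | i
        · change u + w 0 ∈ _
          rw [hw0]
          exact h3.2
        · exact hw i (by omega)
  exact h2 _ u v hu hv h1

/-- **The coarse group of one level.** -/
theorem CoarseF.level (h : CoarseF T D F κ l1 l0) {M : ℕ}
    (hM : ∀ u ∈ D, {v | v ∈ D ∧ u + v ∈ Ball T ((l1 + 6) * κ + 1)}.Finite ∧
      {v | v ∈ D ∧ u + v ∈ Ball T ((l1 + 6) * κ + 1)}.ncard ≤ M) {H : ℕ}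
    (hH : Hok T D ((l1 + 6) * κ + 1) H) :
    CGroup (NH T H) (Kc T D) κ ((l1 + 6) * κ + 1) (fun r => M ^ HH r l0 l1) where
  two := two_eq
  N0 := NH_zero T H
  Nadd := NH_add T H
  zero := ⟨h.zero, 0, Ball.zero _ _⟩
  add a ha b hb := by
    obtain ⟨c, hc, h1⟩ := h.add a ha.1 b hb.1
    obtain ⟨ra, h2⟩ := ha.2
    obtain ⟨rb, h3⟩ := hb.2
    refine ⟨c, ⟨hc, ra + rb + κ, ?_⟩, NH_le h1⟩
    have h4 := ball_add (ball_add h2 h3) h1
    rwa [← add_assoc, two_eq, zero_add] at h4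
  cover r := by
    classical
    obtain ⟨h1, h2⟩ := h.ball_all hM r 0 h.zero
    refine ⟨h1.toFinset.filter fun v => v ∈ Kc T D, ?_, ?_, ?_⟩
    · refine (Finset.card_filter_le _ _).trans ?_
      rwa [← Set.ncard_eq_toFinset_card _ h1]
    · intro s hs
      exact (Finset.mem_filter.mp hs).2
    · intro a ha hr
      refine ⟨a, Finset.mem_filter.mpr ⟨h1.mem_toFinset.mpr ⟨ha.1, ?_⟩, ha⟩, ?_⟩
      · exact hH.ball (u := 0) ⟨h.zero, 0, Ball.zero _ _⟩ ha (by rwa [zero_add])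
      · rw [two_eq, NH_zero]
        exact Nat.zero_le _
  chain a ha := by
    obtain ⟨b, hb⟩ := ha.2
    obtain ⟨w, hw0, hwl, hwK, hw⟩ := h.chain_Kc (u := 0) ⟨h.zero, 0, Ball.zero _ _⟩ ha
      (b := b) (by rwa [zero_add])
    exact ⟨_, w, hw0, hwl, hwK, fun i hi => NH_le (hw i hi)⟩

/-- chains of bounded length, in the truncated area -/
theorem CoarseF.level_chain (h : CoarseF T D F κ l1 l0) {H : ℕ} (hH : Hok T D ((l1 + 6) * κ + 1) H) (r : ℕ) :
    ∀ u ∈ Kc T D, ∀ v ∈ Kc T D, NH T H (u + v) ≤ r → ∃ l ≤ HH r l0 l1,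
      ∃ w : ℕ → (X →₀ ZMod 2), w 0 = u ∧ w l = v ∧ (∀ i, w i ∈ Kc T D) ∧
        ∀ i < l, NH T H (w i + w (i + 1)) ≤ (l1 + 6) * κ + 1 := by
  intro u hu v hv huv
  obtain ⟨w, hw0, hwl, hwK, hw⟩ := h.chain_Kc hu hv (hH.ball hu hv huv)
  exact ⟨_, le_rfl, w, hw0, hwl, hwK, fun i hi => NH_le (hw i hi)⟩

end

end Pool.Agent.helper35.MF
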