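import Pool.Agent.helper35.MF.Len
import Pool.Agent.helper35.MF.Ring

set_option autoImplicit false

/-!
# MP_141f81: the coarse group of a sequence of finite coarse sets

Level `n`: letters `X n`, relators `T n`, a coarse set `D n` with exact set `F n` (`CoarseF`), all of whose balls of
the one absolute radius `(l1 + 6) * κ + 1` have at most `M` points.  In the limit along an ultrafilter the elements
of `D` of finite area form a chain connected coarse group with finite balls (`CGroup`).
-/

namespace Pool.Agent.helper35.MF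

open Filter

/-! ### choice along a filter -/

theorem exists_seq {α : ℕ → Type*} [∀ n, Nonempty (α n)] {U : Filter ℕ} {p : (n : ℕ) → α n → Prop}
    (h : ∀ᶠ n in U, ∃ a, p n a) : ∃ a : (n : ℕ) → α n, ∀ᶠ n in U, p n (a n) := by
  classical
  refine ⟨fun n => if hn : ∃ a, p n a then hn.choose else Classical.arbitrary _, ?_⟩
  filter_upwards [h] with n hn
  rw [dif_pos hn]
  exact hn.choose_spec

/-- finite pigeonhole along an ultrafilter -/
theorem exists_const {ι : Type*} [Finite ι] {U : Ultrafilter ℕ} {p : ℕ → ι → Prop}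
    (h : ∀ᶠ n in U, ∃ i, p n i) : ∃ i, ∀ᶠ n in U, p n i := by
  have h1 : (⋃ i : ι, {n | p n i}) ∈ U := by
    filter_upwards [h] with n hn
    obtain ⟨i, hi⟩ := hn
    exact Set.mem_iUnion.mpr ⟨i, hi⟩
  have h2 := (Ultrafilter.finite_biUnion_mem_iff (f := U) (is := (Set.univ : Set ι)) Set.finite_univ
    (s := fun i => {n | p n i})).mp (by simpa using h1)
  obtain ⟨i, _, hi⟩ := h2
  exact ⟨i, hi⟩

/-- a chain as a function -/
theorem Rc.path {α : Type*} {r : α → α → Prop} {k : ℕ} {a b : α} (h : Rc r k a b) :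
    ∃ f : ℕ → α, f 0 = a ∧ f k = b ∧ ∀ i < k, f i = f (i + 1) ∨ r (f i) (f (i + 1)) ∨ r (f (i + 1)) (f i) := by
  induction k generalizing a with
  | zero => exact ⟨fun _ => a, rfl, h, fun i hi => absurd hi (Nat.not_lt_zero i)⟩
  | succ k ih =>
    obtain ⟨c, h1, h2⟩ := h
    obtain ⟨f, hf0, hfk, hf⟩ := ih h2
    refine ⟨fun i => match i with
      | 0 => a
      | i + 1 => f i, rfl, hfk, ?_⟩
    intro i hi
    rcases i with _ | i
    · change a = f 0 ∨ r a (f 0) ∨ r (f 0) a
      rw [hf0]
      exact h1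
    · exact hf i (by omega)

/-! ### the limit -/

section

variable {X : ℕ → Type} (T D : (n : ℕ) → Set (X n →₀ ZMod 2)) (U : Ultrafilter ℕ)

/-- the sequences of finite area -/
def Gf : AddSubgroup ((n : ℕ) → (X n →₀ ZMod 2)) where
  carrier := {g | ∃ b : ℕ, ∀ᶠ n in U, g n ∈ Ball (T n) b}
  zero_mem' := ⟨0, Eventually.of_forall fun _ => Ball.zero _ _⟩
  add_mem' := by
    rintro a b ⟨r, hr⟩ ⟨s, hs⟩
    refine ⟨r + s, ?_⟩
    filter_upwards [hr, hs] with n h1 h2
    exact ball_add h1 h2
  neg_mem' := by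
    rintro a ⟨r, hr⟩
    refine ⟨r, ?_⟩
    filter_upwards [hr] with n h1
    have h2 : (-a) n = a n := by
      rw [Pi.neg_apply, neg_eq_iff_add_eq_zero]
      exact two_eq _
    rwa [h2]

/-- the area of a sequence -/
noncomputable def Nf (g : Gf T U) : ℕ := sInf {b : ℕ | ∀ᶠ n in U, g.1 n ∈ Ball (T n) b}

theorem Nf_spec (g : Gf T U) : ∀ᶠ n in U, g.1 n ∈ Ball (T n) (Nf T U g) :=
  Nat.sInf_mem (s := {b : ℕ | ∀ᶠ n in U, g.1 n ∈ Ball (T n) b}) g.2

variable {T U} in
theorem Nf_le {g : Gf T U} {b : ℕ} (h : ∀ᶠ n in U, g.1 n ∈ Ball (T n) b) : Nf T U g ≤ b :=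
  Nat.sInf_le h

variable {T U} in
theorem Nf_le_iff {g : Gf T U} {b : ℕ} : Nf T U g ≤ b ↔ ∀ᶠ n in U, g.1 n ∈ Ball (T n) b := by
  refine ⟨fun h => ?_, Nf_le⟩
  filter_upwards [Nf_spec T U g] with n hn
  exact Ball.mono h hn

/-- the sequences in `D` of finite area -/
def Kf : Set (Gf T U) := {g | ∀ᶠ n in U, g.1 n ∈ D n}

variable {T D U} {F : (n : ℕ) → Set (X n →₀ ZMod 2)} {κ l1 l0 M : ℕ}

/-- **The limit of coarse sets with finite balls of one absolute radius is a coarse group.** -/
theorem cgroup (hF : ∀ᶠ n in U, CoarseF (T n) (D n) (F n) κ l1 l0)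
    (hM : ∀ᶠ n in U, ∀ u ∈ D n, {v | v ∈ D n ∧ u + v ∈ Ball (T n) ((l1 + 6) * κ + 1)}.Finite ∧
      {v | v ∈ D n ∧ u + v ∈ Ball (T n) ((l1 + 6) * κ + 1)}.ncard ≤ M) :
    CGroup (Nf T U) (Kf T D U) κ ((l1 + 6) * κ + 1) (fun r => M ^ HH r l0 l1) where
  two g := Subtype.ext (funext fun n => two_eq _)
  N0 := Nat.le_zero.mp (Nf_le (Eventually.of_forall fun n => Ball.zero _ _))
  Nadd a b := by
    refine Nf_le ?_
    filter_upwards [Nf_spec T U a, Nf_spec T U b] with n h1 h2
    exact ball_add h1 h2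
  zero := by
    change ∀ᶠ n in U, (0 : X n →₀ ZMod 2) ∈ D n
    filter_upwards [hF] with n hn
    exact hn.zero
  add a ha b hb := by
    have h1 : ∀ᶠ n in U, ∃ c : X n →₀ ZMod 2, c ∈ D n ∧ a.1 n + b.1 n + c ∈ Ball (T n) κ := by
      have ha' : ∀ᶠ n in U, a.1 n ∈ D n := ha
      have hb' : ∀ᶠ n in U, b.1 n ∈ D n := hb
      filter_upwards [hF, ha', hb'] with n h1 h2 h3
      exact h1.add _ h2 _ h3
    obtain ⟨c, hc⟩ := exists_seq h1
    have hcG : c ∈ Gf T U := by
      refine ⟨Nf T U a + Nf T U b + κ, ?_⟩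
      filter_upwards [hc, Nf_spec T U a, Nf_spec T U b] with n h1 h2 h3
      have h4 := ball_add (ball_add h2 h3) h1.2
      have h5 : a.1 n + b.1 n + (a.1 n + b.1 n + c n) = c n := by
        rw [← add_assoc, two_eq, zero_add]
      rwa [h5] at h4
    refine ⟨⟨c, hcG⟩, ?_, Nf_le ?_⟩
    · change ∀ᶠ n in U, c n ∈ D n
      filter_upwards [hc] with n hn
      exact hn.1
    · filter_upwards [hc] with n hn
      exact hn.2
  cover r := by
    classical
    -- enumeration of the ball of radius `r`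
    have h1 : ∀ᶠ n in U, ∃ f : Fin (M ^ HH r l0 l1) → (X n →₀ ZMod 2),
        ∀ v ∈ D n, v ∈ Ball (T n) r → ∃ i, f i = v := by
      filter_upwards [hF, hM] with n h1 h2
      obtain ⟨h3, h4⟩ := h1.ball_all h2 r 0 h1.zero
      have h5 : h3.toFinset.card ≤ M ^ HH r l0 l1 := by
        rwa [← Set.ncard_eq_toFinset_card _ h3]
      obtain ⟨e⟩ : Nonempty ({v // v ∈ h3.toFinset} ↪ Fin (M ^ HH r l0 l1)) :=
        Function.Embedding.nonempty_of_card_le (by rw [Fintype.card_coe, Fintype.card_fin]; exact h5)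
      refine ⟨fun i => if hi : ∃ v : {v // v ∈ h3.toFinset}, e v = i then hi.choose.1 else 0, ?_⟩
      intro v hv hv'
      have h6 : v ∈ h3.toFinset := by
        rw [Set.Finite.mem_toFinset]
        exact ⟨hv, by rwa [zero_add]⟩
      refine ⟨e ⟨v, h6⟩, ?_⟩
      have h7 : ∃ w : {v // v ∈ h3.toFinset}, e w = e ⟨v, h6⟩ := ⟨_, rfl⟩
      beta_reduce
      rw [dif_pos h7]
      have h8 := e.injective h7.choose_spec
      rw [h8]
    obtain ⟨f, hf⟩ := exists_seq h1
    -- the sequences
    have h2 : ∀ i : Fin (M ^ HH r l0 l1), ∃ s : Gf T U, s ∈ Kf T D U ∧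
        ((∀ᶠ n in U, f n i ∈ D n ∧ f n i ∈ Ball (T n) r) → ∀ᶠ n in U, s.1 n = f n i) := by
      intro i
      by_cases hi : ∀ᶠ n in U, f n i ∈ D n ∧ f n i ∈ Ball (T n) r
      · refine ⟨⟨fun n => f n i, ⟨r, ?_⟩⟩, ?_, fun _ => Eventually.of_forall fun n => rfl⟩
        · filter_upwards [hi] with n hn
          exact hn.2
        · change ∀ᶠ n in U, f n i ∈ D n
          filter_upwards [hi] with n hn
          exact hn.1
      · refine ⟨0, ?_, fun h0 => absurd h0 hi⟩
        change ∀ᶠ n in U, (0 : X n →₀ ZMod 2) ∈ D n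
        filter_upwards [hF] with n hn
        exact hn.zero
    choose s hsK hs using h2
    refine ⟨Finset.univ.image s, ?_, ?_, ?_⟩
    · exact Finset.card_image_le.trans (by rw [Finset.card_univ, Fintype.card_fin])
    · intro x hx
      obtain ⟨i, _, rfl⟩ := Finset.mem_image.mp hx
      exact hsK i
    · intro a ha hr
      have ha' : ∀ᶠ n in U, a.1 n ∈ D n := ha
      have h3 : ∀ᶠ n in U, ∃ i, f n i = a.1 n ∧ (f n i ∈ D n ∧ f n i ∈ Ball (T n) r) := by
        filter_upwards [hf, ha', Nf_le_iff.mp hr] with n h4 h5 h6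
        obtain ⟨i, hi⟩ := h4 _ h5 h6
        exact ⟨i, hi, by rw [hi]; exact ⟨h5, h6⟩⟩
      obtain ⟨i, hi⟩ := exists_const h3
      refine ⟨s i, Finset.mem_image_of_mem _ (Finset.mem_univ i), Nf_le ?_⟩
      have h4 := hs i (by filter_upwards [hi] with n hn; exact hn.2)
      filter_upwards [h4, hi] with n h5 h6
      change a.1 n + (s i).1 n ∈ _
      rw [h5, h6.1, two_eq]
      exact Ball.zero _ _
  chain a ha := by
    classical
    have ha' : ∀ᶠ n in U, a.1 n ∈ D n := ha
    obtain ⟨k, hk⟩ : ∃ k, k = HH (Nf T U a) l0 l1 := ⟨_, rfl⟩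
    have h1 : ∀ᶠ n in U, ∃ f : ℕ → (X n →₀ ZMod 2), f 0 = 0 ∧ f k = a.1 n ∧
        (∀ i < k, f i ∈ D n ∧ f (i + 1) ∈ D n ∧ f i + f (i + 1) ∈ Ball (T n) ((l1 + 6) * κ + 1)) ∧
        f k ∈ D n := by
      filter_upwards [hF, ha', Nf_spec T U a] with n h1 h2 h3
      have h4 := h1.chain_len h1.zero h2 (b := Nf T U a) (by rwa [zero_add])
      rw [← hk] at h4
      obtain ⟨f, hf0, hfk, hf⟩ := h4.path
      have h5 : ∀ i, i ≤ k → f i ∈ D n := by
        intro i
        induction i with
        | zero =>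
          intro _
          rw [hf0]
          exact h1.zero
        | succ i ih =>
          intro hi
          rcases hf i (by omega) with h6 | h6 | h6
          · rw [← h6]
            exact ih (by omega)
          · exact h6.2.1
          · exact h6.1
      refine ⟨f, hf0, hfk, fun i hi => ⟨h5 i hi.le, h5 (i + 1) hi, ?_⟩, h5 k le_rfl⟩
      rcases hf i hi with h6 | h6 | h6
      · rw [← h6, two_eq]
        exact Ball.zero _ _
      · exact h6.2.2
      · rw [add_comm (f i)]
        exact h6.2.2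
    obtain ⟨f, hf⟩ := exists_seq h1
    have hG : ∀ i, i ≤ k → (fun n => f n i) ∈ Gf T U := by
      intro i
      induction i with
      | zero =>
        intro _
        refine ⟨0, ?_⟩
        filter_upwards [hf] with n hn
        rw [hn.1]
        exact Ball.zero _ _
      | succ i ih =>
        intro hi
        obtain ⟨b, hb⟩ := ih (by omega)
        refine ⟨b + ((l1 + 6) * κ + 1), ?_⟩
        filter_upwards [hb, hf] with n h2 h3
        have h4 := ball_add h2 (h3.2.2.1 i (by omega)).2.2
        have h5 : f n i + (f n i + f n (i + 1)) = f n (i + 1) := by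
          rw [← add_assoc, two_eq, zero_add]
        rwa [h5] at h4
    have hK : ∀ i (hi : i ≤ k), (⟨fun n => f n i, hG i hi⟩ : Gf T U) ∈ Kf T D U := by
      intro i hi
      change ∀ᶠ n in U, f n i ∈ D n
      filter_upwards [hf] with n hn
      rcases Nat.lt_or_ge i k with h2 | h2
      · exact (hn.2.2.1 i h2).1
      · obtain rfl : i = k := le_antisymm hi h2
        exact hn.2.2.2
    refine ⟨k + 2, fun i => if i = 0 then 0 else
      if hi : i - 1 ≤ k then ⟨fun n => f n (i - 1), hG (i - 1) hi⟩ else a, ?_, ?_, ?_, ?_⟩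
    · exact if_pos rfl
    · beta_reduce
      rw [if_neg (by omega), dif_neg (by omega)]
    · intro i
      beta_reduce
      by_cases hi : i = 0
      · rw [if_pos hi]
        change ∀ᶠ n in U, (0 : X n →₀ ZMod 2) ∈ D n
        filter_upwards [hF] with n hn
        exact hn.zero
      · rw [if_neg hi]
        by_cases hi' : i - 1 ≤ k
        · rw [dif_pos hi']
          exact hK (i - 1) hi'
        · rw [dif_neg hi']
          exact ha
    · intro i hi
      refine Nf_le ?_
      beta_reduce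
      rcases i with _ | i
      · rw [if_pos rfl, if_neg (by omega), dif_pos (by omega)]
        filter_upwards [hf] with n hn
        change (0 : X n →₀ ZMod 2) + f n 0 ∈ _
        rw [hn.1, add_zero]
        exact Ball.zero _ _
      · rw [if_neg (by omega), if_neg (by omega), dif_pos (by omega)]
        rcases Nat.lt_or_ge i k with h2 | h2
        · rw [dif_pos (by omega)]
          filter_upwards [hf] with n hn
          change f n i + f n (i + 1) ∈ _
          exact (hn.2.2.1 i h2).2.2
        · rw [dif_neg (by omega)]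
          obtain rfl : i = k := by omega
          filter_upwards [hf] with n hn
          change f n i + a.1 n ∈ _
          rw [hn.2.1, two_eq]
          exact Ball.zero _ _

end

end Pool.Agent.helper35.MF
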