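import Pool.Agent.MF.Frame2
import Pool.Agent.MF.LemT
import Pool.Agent.helper71.MF7b

set_option autoImplicit false
set_option linter.unusedSectionVars false

/-!
# MP_141f81, Section 9, (R4): the operator side of the input of `exists_L`

`pih π` is the value of a word, `Ah A` its operator, both additive on `G N n = (N × Fin n) →₀ ZMod 2`; the lines of `S`
have value zero and an operator of bounded range.  `Bb U r` are the maps with at most `2 ^ r` values.
-/

namespace Pool.Agent.helper35.MF

open Finset Pool.Agent.MF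
open Pool.Agent.MF.LemT (nr nr_add nr_zero)
open Pool.Agent.helper71.MF7b (Nrm)

/-! ### additive extensions -/

section

variable {X H : Type*} [AddCommGroup H]

/-- the additive extension of a function on the letters to the words, for a group of exponent two -/
noncomputable def ext2 (two : ∀ h : H, h + h = 0) (f : X → H) : (X →₀ ZMod 2) →+ H :=
  letI : Module (ZMod 2) H := AddCommGroup.zmodModule (n := 2) fun a => by rw [two_nsmul]; exact two a
  (Finsupp.linearCombination (ZMod 2) f).toAddMonoidHom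

theorem ext2_sy (two : ∀ h : H, h + h = 0) (f : X → H) (x : X) : ext2 two f (Finsupp.single x 1) = f x := by
  letI : Module (ZMod 2) H := AddCommGroup.zmodModule (n := 2) fun a => by rw [two_nsmul]; exact two a
  change Finsupp.linearCombination (ZMod 2) f (Finsupp.single x 1) = f x
  rw [Finsupp.linearCombination_single, one_smul]

end

section

variable {N : Type} [AddCommGroup N] [Fintype N] [DecidableEq N] {M : Mat N} {n T : ℕ}
  {R S : Finset (N → Fin n)} {U : Type} [AddCommGroup U]

/-- additive maps of a group of exponent two have exponent two -/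
theorem end_two (two : ∀ u : U, u + u = 0) (f : AddMonoid.End U) : f + f = 0 := by
  ext u
  exact two (f u)

/-- the value of a word -/
noncomputable def pih (two : ∀ u : U, u + u = 0) (π : N → Fin n → U) : G N n →+ U :=
  ext2 two fun l => π l.1 l.2

theorem pih_lt (two : ∀ u : U, u + u = 0) (π : N → Fin n → U) (v : N) (x : Fin n) :
    pih two π (lt v x) = π v x := ext2_sy _ _ _

theorem pih_sy (two : ∀ u : U, u + u = 0) (π : N → Fin n → U) (l : N × Fin n) :
    pih two π (sy l) = π l.1 l.2 := ext2_sy _ _ _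

/-- lines have value zero -/
theorem pih_lines (two : ∀ u : U, u + u = 0) {π : N → Fin n → U}
    (hadd : ∀ ρ ∈ R, ∀ u v : N, π (u + v) (ρ (u + v)) = π u (ρ u) + π v (ρ v)) {τ L : Finset N}
    {g : G N n} (hg : g ∈ Lines M τ L R) : pih two π g = 0 := by
  obtain ⟨ρ, hρ, u, -, v, -, -, -, rfl⟩ := hg
  rw [lin, map_add, map_add, pih_lt, pih_lt, pih_lt, hadd ρ hρ u v]
  exact two _

/-- the operator of a word -/
noncomputable def Ah (two : ∀ u : U, u + u = 0) (A : N → Fin n → AddMonoid.End U) : G N n →+ AddMonoid.End U :=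
  ext2 (end_two two) fun l => A l.1 l.2

theorem Ah_lt (two : ∀ u : U, u + u = 0) (A : N → Fin n → AddMonoid.End U) (v : N) (x : Fin n) :
    Ah two A (lt v x) = A v x := ext2_sy _ _ _

theorem Ah_sy (two : ∀ u : U, u + u = 0) (A : N → Fin n → AddMonoid.End U) (l : N × Fin n) :
    Ah two A (sy l) = A l.1 l.2 := ext2_sy _ _ _

/-- lines have an operator of bounded range -/
theorem Ah_lines (two : ∀ u : U, u + u = 0) {A : N → Fin n → AddMonoid.End U} {K : ℕ} {τ L : Finset N}
    (hline : ∀ η ∈ S, ∀ u ∈ L, ∀ v ∈ L, u + v ∈ L → M.Ind τ u v →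
      nr (A u (η u) + A v (η v) + A (u + v) (η (u + v))) ≤ K)
    {g : G N n} (hg : g ∈ Lines M τ L S) : nr (Ah two A g) ≤ K := by
  obtain ⟨ρ, hρ, u, hu, v, hv, huv, hi, rfl⟩ := hg
  rw [lin, map_add, map_add, Ah_lt, Ah_lt, Ah_lt]
  exact hline ρ hρ u hu v hv huv hi

variable (U) in
/-- the maps with at most `2 ^ r` values -/
def Bb (r : ℕ) : Set (AddMonoid.End U) := {f | nr f ≤ 2 ^ r}

theorem mem_Bb {f : AddMonoid.End U} {r : ℕ} : f ∈ Bb U r ↔ nr f ≤ 2 ^ r := Iff.rfl

theorem mem_Bb_self {f : AddMonoid.End U} {K : ℕ} (h : nr f ≤ K) : f ∈ Bb U K :=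
  h.trans Nat.lt_two_pow_self.le

theorem nrm_Bb [Finite U] : Nrm (Bb U) where
  zero := by
    change nr (0 : AddMonoid.End U) ≤ 2 ^ 0
    rw [nr_zero, pow_zero]
  mono := fun h _ hf => le_trans hf (Nat.pow_le_pow_right (by norm_num) h)
  add := fun {r t} {f g} hf hg => by
    change nr (f + g) ≤ 2 ^ (r + t)
    rw [pow_add]
    exact (nr_add f g).trans (Nat.mul_le_mul hf hg)

/-- the operators of the lines, in balls -/
theorem Ah_lines_Bb (two : ∀ u : U, u + u = 0) {A : N → Fin n → AddMonoid.End U} {K : ℕ} {τ L : Finset N}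
    (hline : ∀ η ∈ S, ∀ u ∈ L, ∀ v ∈ L, u + v ∈ L → M.Ind τ u v →
      nr (A u (η u) + A v (η v) + A (u + v) (η (u + v))) ≤ K) :
    ∀ t ∈ Lines M τ L S, Ah two A t ∈ Bb U K := fun _ ht => mem_Bb_self (Ah_lines two hline ht)

end

end Pool.Agent.helper35.MF
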