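import Mathlib
import Pool.Agent.MF.Frame2
import Pool.Agent.helper20.MF.Mul

set_option autoImplicit false
set_option linter.unusedSectionVars false

/-!
# MP_141f81, Section 7e, (E2): the squaring

`R` exact rows, `α : V → V` additive on `L`, `α v ∈ cl {v}` and `v ∈ cl {α v}` for `v ∈ L`.  The map `phi R L α` sends
the letter `(v, ρ v)` of a row `ρ` of `R`, `v ∈ L`, to the letter `(α v, ρ (α v))` of the same row.  It maps lines to
lines, words to words and has a left inverse on the words in the letters of `L`, hence is an isometry onto its image.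
-/

namespace Pool.Agent.helper35.MF

open Finset Pool.Agent.MF Pool.Agent.helper20.MF

variable {V : Type} [AddCommGroup V] [Fintype V] [DecidableEq V] {M : Mat V} {n : ℕ}
  {R S : Finset (V → Fin n)} {L : Finset V} {α : V → V}

open Classical in
/-- the image of a letter -/
noncomputable def phiv (R : Finset (V → Fin n)) (L : Finset V) (α : V → V) (l : V × Fin n) : V × Fin n :=
  if h : ∃ ρ ∈ R, l.1 ∈ L ∧ ρ l.1 = l.2 then (α l.1, h.choose (α l.1)) else l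

/-- the map of the letters -/
noncomputable def phi (R : Finset (V → Fin n)) (L : Finset V) (α : V → V) : G V n →+ G V n :=
  (Finsupp.linearCombination (ZMod 2) fun l => (sy (phiv R L α l) : G V n)).toAddMonoidHom

theorem phi_sy (l : V × Fin n) : phi R L α (sy l) = sy (phiv R L α l) := by
  change Finsupp.linearCombination (ZMod 2) (fun l => (sy (phiv R L α l) : G V n)) (Finsupp.single l 1) = _
  rw [Finsupp.linearCombination_single, one_smul]

theorem phiv_eq (hE : Exact M R) (hα : ∀ v ∈ L, M.InCl {v} (α v)) {v : V} (hv : v ∈ L)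
    {ρ : V → Fin n} (hρ : ρ ∈ R) : phiv R L α (v, ρ v) = (α v, ρ (α v)) := by
  have hex : ∃ ρ' ∈ R, (v, ρ v).1 ∈ L ∧ ρ' (v, ρ v).1 = (v, ρ v).2 := ⟨ρ, hρ, hv, rfl⟩
  rw [phiv, dif_pos hex]
  obtain ⟨h1, -, h3⟩ := hex.choose_spec
  have h4 : hex.choose (α v) = ρ (α v) := by
    refine hE {v} (α v) (hα v hv) _ h1 _ hρ ?_
    intro u hu
    rw [Finset.mem_singleton] at hu
    rw [hu]
    exact h3
  change (α v, hex.choose (α v)) = _
  rw [h4]

/-- `φ` on a letter -/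
theorem phi_lt (hE : Exact M R) (hα : ∀ v ∈ L, M.InCl {v} (α v)) {v : V} (hv : v ∈ L)
    {ρ : V → Fin n} (hρ : ρ ∈ R) : phi R L α (lt v (ρ v)) = lt (α v) (ρ (α v)) := by
  change phi R L α (sy (v, ρ v)) = sy (α v, ρ (α v))
  rw [phi_sy, phiv_eq hE hα hv hρ]

/-- `φ` on a line -/
theorem phi_lin (hE : Exact M R) (hα : ∀ v ∈ L, M.InCl {v} (α v))
    (hadd : ∀ u ∈ L, ∀ v ∈ L, α (u + v) = α u + α v) {u v : V} (hu : u ∈ L) (hv : v ∈ L)
    (huv : u + v ∈ L) {ρ : V → Fin n} (hρ : ρ ∈ R) : phi R L α (lin ρ u v) = lin ρ (α u) (α v) := by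
  unfold lin
  rw [map_add, map_add, phi_lt hE hα hu hρ, phi_lt hE hα hv hρ, phi_lt hE hα huv hρ, hadd u hu v hv]

/-- `φ` maps lines to lines -/
theorem phi_lines (hE : Exact M R) (hα : ∀ v ∈ L, M.InCl {v} (α v)) (hα' : ∀ v ∈ L, M.InCl {α v} v)
    (hadd : ∀ u ∈ L, ∀ v ∈ L, α (u + v) = α u + α v) {R' : Finset (V → Fin n)} (hR' : R' ⊆ R)
    {g : G V n} (hg : g ∈ Lines M ∅ L R') : phi R L α g ∈ Lines M ∅ Finset.univ R' := by
  obtain ⟨ρ, hρ, u, hu, v, hv, huv, hi, rfl⟩ := hg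
  refine ⟨ρ, hρ, α u, mem_univ _, α v, mem_univ _, mem_univ _, ?_, ?_⟩
  · exact ind_map hi (hα' u hu) (hα' v hv)
  · exact phi_lin hE hα hadd hu hv huv (hR' hρ)

theorem phi_ball (hE : Exact M R) (hα : ∀ v ∈ L, M.InCl {v} (α v)) (hα' : ∀ v ∈ L, M.InCl {α v} v)
    (hadd : ∀ u ∈ L, ∀ v ∈ L, α (u + v) = α u + α v) {R' : Finset (V → Fin n)} (hR' : R' ⊆ R) {r : ℕ}
    {g : G V n} (hg : g ∈ Ball (Lines M ∅ L R') r) :
    phi R L α g ∈ Ball (Lines M ∅ Finset.univ R') r :=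
  Ball_map _ (fun _ ht => phi_lines hE hα hα' hadd hR' ht) hg

/-- `φ` maps words to words -/
theorem phi_words (hE : Exact M R) (hα : ∀ v ∈ L, M.InCl {v} (α v)) {R' : Finset (V → Fin n)} (hR' : R' ⊆ R)
    {K : Finset V} (hK : ∀ v ∈ L, α v ∈ K) {k : ℕ} {g : G V n} (hg : g ∈ Words R' L k) :
    phi R L α g ∈ Words R' K k := by
  obtain ⟨l, h1, h2, rfl⟩ := hg
  refine ⟨l.map (phi R L α), by rwa [List.length_map], fun w hw => ?_, by rw [map_list_sum]⟩
  obtain ⟨y, hy, rfl⟩ := List.mem_map.mp hw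
  obtain ⟨ρ, hρ, v, hv, rfl⟩ := h2 y hy
  exact ⟨ρ, hρ, α v, hK v hv, phi_lt hE hα hv (hR' hρ)⟩

/-! ### the left inverse -/

/-- the letters of the rows of `R` with roles in `L` -/
def Lets (R : Finset (V → Fin n)) (L : Finset V) : Set (V × Fin n) := {l | ∃ ρ ∈ R, l.1 ∈ L ∧ ρ l.1 = l.2}

/-- the words in these letters -/
noncomputable def LSpan (R : Finset (V → Fin n)) (L : Finset V) : AddSubgroup (G V n) :=
  AddSubgroup.closure {g | ∃ l ∈ Lets R L, g = sy l}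

theorem sy_mem_LSpan {l : V × Fin n} (hl : l ∈ Lets R L) : (sy l : G V n) ∈ LSpan R L :=
  AddSubgroup.subset_closure ⟨l, hl, rfl⟩

theorem wd_mem_LSpan {l : List (V × Fin n)} (hl : ∀ x ∈ l, x ∈ Lets R L) : (wd l : G V n) ∈ LSpan R L := by
  refine AddSubgroup.list_sum_mem _ ?_
  intro x hx
  obtain ⟨y, hy, rfl⟩ := List.mem_map.mp hx
  exact sy_mem_LSpan (hl y hy)

theorem lt_mem_LSpan {ρ : V → Fin n} (hρ : ρ ∈ R) {v : V} (hv : v ∈ L) : lt v (ρ v) ∈ LSpan R L :=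
  sy_mem_LSpan (l := (v, ρ v)) ⟨ρ, hρ, hv, rfl⟩

theorem Lines_LSpan {τ : Finset V} {R' : Finset (V → Fin n)} (hR' : R' ⊆ R) :
    Lines M τ L R' ⊆ (LSpan R L : Set (G V n)) := by
  rintro g ⟨ρ, hρ, u, hu, v, hv, huv, -, rfl⟩
  exact add_mem (add_mem (lt_mem_LSpan (hR' hρ) hu) (lt_mem_LSpan (hR' hρ) hv)) (lt_mem_LSpan (hR' hρ) huv)

theorem Words_LSpan {R' : Finset (V → Fin n)} (hR' : R' ⊆ R) {k : ℕ} :
    Words R' L k ⊆ (LSpan R L : Set (G V n)) := by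
  rintro g ⟨l, -, h2, rfl⟩
  refine AddSubgroup.list_sum_mem _ ?_
  intro x hx
  obtain ⟨ρ, hρ, v, hv, rfl⟩ := h2 x hx
  exact lt_mem_LSpan (hR' hρ) hv

/-- the left inverse -/
theorem exists_psi (hE : Exact M R) (hα : ∀ v ∈ L, M.InCl {v} (α v)) (hα' : ∀ v ∈ L, M.InCl {α v} v)
    (hinj : ∀ u ∈ L, ∀ v ∈ L, α u = α v → u = v) :
    ∃ ψ : G V n →+ G V n, ∀ x ∈ LSpan R L, ψ (phi R L α x) = x := by
  classical
  obtain ⟨β, hβ⟩ : ∃ β : V → V, ∀ v ∈ L, β (α v) = v := by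
    refine ⟨fun w => if h : ∃ v ∈ L, α v = w then h.choose else 0, fun v hv => ?_⟩
    have h : ∃ v' ∈ L, α v' = α v := ⟨v, hv, rfl⟩
    change (if h : ∃ v' ∈ L, α v' = α v then h.choose else 0) = v
    rw [dif_pos h]
    exact hinj _ h.choose_spec.1 _ hv h.choose_spec.2
  refine ⟨phi R (L.image α) β, fun x hx => ?_⟩
  have hβc : ∀ w ∈ L.image α, M.InCl {w} (β w) := by
    intro w hw
    obtain ⟨v, hv, rfl⟩ := Finset.mem_image.mp hw
    rw [hβ v hv]
    exact hα' v hv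
  induction hx using AddSubgroup.closure_induction with
  | mem x hx =>
    obtain ⟨⟨v, x⟩, ⟨ρ, hρ, hv, hvx⟩, rfl⟩ := hx
    change ρ v = x at hvx
    subst hvx
    change phi R (L.image α) β (phi R L α (lt v (ρ v))) = lt v (ρ v)
    rw [phi_lt hE hα hv hρ, phi_lt hE hβc (Finset.mem_image_of_mem α hv) hρ, hβ v hv]
  | zero => rw [map_zero, map_zero]
  | add x y _ _ hx hy => rw [map_add, map_add, hx, hy]
  | neg x _ hx => rw [map_neg, map_neg, hx]

/-- **`φ` is an isometry onto its image.** -/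
theorem phi_iso (hE : Exact M R) (hα : ∀ v ∈ L, M.InCl {v} (α v)) (hα' : ∀ v ∈ L, M.InCl {α v} v)
    (hinj : ∀ u ∈ L, ∀ v ∈ L, α u = α v → u = v) {T1 : Set (G V n)} (hT1 : T1 ⊆ (LSpan R L : Set (G V n)))
    {x : G V n} (hx : x ∈ LSpan R L) {r : ℕ} (h : phi R L α x ∈ Ball (phi R L α '' T1) r) : x ∈ Ball T1 r := by
  obtain ⟨ψ, hψ⟩ := exists_psi hE hα hα' hinj
  have h1 := Ball_map (T' := T1) ψ (by
    rintro _ ⟨t, ht, rfl⟩
    rw [hψ t (hT1 ht)]
    exact ht) h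
  rwa [hψ x hx] at h1

/-- `φ` is injective on the letters -/
theorem phiv_inj (hE : Exact M R) (hα : ∀ v ∈ L, M.InCl {v} (α v)) (hα' : ∀ v ∈ L, M.InCl {α v} v)
    (hinj : ∀ u ∈ L, ∀ v ∈ L, α u = α v → u = v) {p q : V × Fin n} (hp : p ∈ Lets R L) (hq : q ∈ Lets R L)
    (h : phiv R L α p = phiv R L α q) : p = q := by
  obtain ⟨ψ, hψ⟩ := exists_psi hE hα hα' hinj
  have h1 := hψ _ (sy_mem_LSpan hp)
  have h2 := hψ _ (sy_mem_LSpan hq)
  rw [phi_sy] at h1 h2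
  rw [h] at h1
  have h3 : (sy p : G V n) = sy q := h1.symm.trans h2
  exact (Finsupp.single_left_injective (one_ne_zero)) h3

/-- the letters `φ p` -/
theorem phiv_mem (hE : Exact M R) (hα : ∀ v ∈ L, M.InCl {v} (α v)) {R' : Finset (V → Fin n)} (hR' : R' ⊆ R)
    {K : Finset V} (hK : ∀ v ∈ L, α v ∈ K) {p : V × Fin n} (hp : p ∈ Lets R' L) : phiv R L α p ∈ Lets R' K := by
  obtain ⟨v, x⟩ := p
  obtain ⟨ρ, hρ, hv, hvx⟩ := hp
  change ρ v = x at hvx
  subst hvx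
  rw [phiv_eq hE hα hv (hR' hρ)]
  exact ⟨ρ, hρ, hK v hv, rfl⟩

/-- consistency for the letters `φ p` -/
theorem phi_cons (hE : Exact M R) (hα : ∀ v ∈ L, M.InCl {v} (α v)) (hα' : ∀ v ∈ L, M.InCl {α v} v)
    (hinj : ∀ u ∈ L, ∀ v ∈ L, α u = α v → u = v) {B : Set (G V n)} {C : ℕ}
    (hcons : ∀ (p : V × Fin n) (Q : Finset (V × Fin n)), (∀ q ∈ Q, sy p + sy q ∈ B) → Q.card ≤ C)
    (p : V × Fin n) (Q : Finset (V × Fin n)) (hQL : ∀ q ∈ Q, q ∈ Lets R L)
    (hQ : ∀ q ∈ Q, phi R L α (sy p) + phi R L α (sy q) ∈ B) : Q.card ≤ C := by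
  classical
  rw [← Finset.card_image_of_injOn (s := Q) (f := phiv R L α) (fun q hq q' hq' h =>
    phiv_inj hE hα hα' hinj (hQL q hq) (hQL q' hq') h)]
  refine hcons (phiv R L α p) _ fun q hq => ?_
  obtain ⟨q', hq', rfl⟩ := Finset.mem_image.mp hq
  have h1 := hQ q' hq'
  rwa [phi_sy, phi_sy] at h1

/-! ### the squaring of `KillAlg` -/

theorem sq_inj {Lin : Finset V} {a b : V} {A B sq : V → V} (hK : KillAlg M Lin a b A B sq) :
    ∀ u ∈ Lin, ∀ v ∈ Lin, sq u = sq v → u = v := by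
  intro u hu v hv h
  have h1 : sq (u + v) = 0 := by rw [hK.sq_add u hu v hv, h, M.two]
  by_contra hne
  have h2 : u + v ≠ 0 := by
    intro h3
    apply hne
    have h4 := sum_cancel M u v
    rw [h3, add_zero] at h4
    exact h4
  have h3 := hK.sq_cl' (u + v) (hK.lin.add u hu v hv)
  rw [h1] at h3
  unfold Mat.InCl at h3
  rw [M.rk_zero] at h3
  have h4 := M.rk_single (u + v) h2
  have h5 : M.rk {u + v} ≤ M.rk (insert (u + v) {0}) := M.rk_mono (by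
    intro x hx
    rw [Finset.mem_singleton] at hx
    rw [hx]
    exact Finset.mem_insert_self _ _)
  omega

end Pool.Agent.helper35.MF
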