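import Pool.Agent.helper35.MF.PhiT
import Pool.Agent.MF.SlotDefs

set_option autoImplicit false

/-!
# MP_141f81, Section 7e, (E2): the fields of the squaring for the relators `Tt`
-/

namespace Pool.Agent.helper35.MF

open Finset Pool.Agent.MF Pool.Agent.helper20.MF

variable {V : Type} [AddCommGroup V] [Fintype V] [DecidableEq V] {M : Mat V} {n : ℕ}
  {R S : Finset (V → Fin n)} {Lin : Finset V} {a b : V} {A B sq : V → V}

/-- the fields `P1S`, `PsS`, `Tss`, `φx`, `φT`, `φP`, `φPs`, `φiso` of `In7` -/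
theorem phi_fields_Tt (hK : KillAlg M Lin a b A B sq) (hE : Exact M R) (hSR : S ⊆ R) :
    PL M ∅ Lin S ⊆ PL M ∅ Finset.univ S ∧ (PL M ∅ Lin S).image (phiv R Lin sq) ⊆ PL M ∅ Finset.univ S ∧
    phi R Lin sq '' Tt M ∅ Lin R S ⊆ Tt M ∅ Finset.univ R S ∧
    (∀ ρ ∈ S, ((a, ρ a) : V × Fin n) ∈ PL M ∅ Lin S ∧
      phi R Lin sq (sy (a, ρ a)) = sy (sq a, ρ (sq a))) ∧
    (∀ t ∈ Tt M ∅ Lin R S, phi R Lin sq t ∈ phi R Lin sq '' Tt M ∅ Lin R S) ∧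
    (∀ q ∈ PL M ∅ Lin S, ∃ q' ∈ (PL M ∅ Lin S).image (phiv R Lin sq), phi R Lin sq (sy q) = sy q') ∧
    (∀ q' ∈ (PL M ∅ Lin S).image (phiv R Lin sq), ∃ q ∈ PL M ∅ Lin S, phi R Lin sq (sy q) = sy q') ∧
    (∀ (l : List (V × Fin n)) (r' : ℕ), (∀ q ∈ l, q ∈ PL M ∅ Lin S) →
      phi R Lin sq (wd l) ∈ Ball (phi R Lin sq '' Tt M ∅ Lin R S) r' → wd l ∈ Ball (Tt M ∅ Lin R S) r') :=
  phi_fields (k := 17) (r := 82) hK hE hSR
    (fun p => by rw [mem_PL, SD_empty]; exact ⟨fun h => h.2, fun h => ⟨mem_univ _, h⟩⟩)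
    (fun p => by rw [mem_PL, SD_empty]) (fun _ => Iff.rfl) (fun _ => Iff.rfl)

end Pool.Agent.helper35.MF
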