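import Pool.Agent.helper35.MF.Phi

set_option autoImplicit false
set_option linter.unusedSectionVars false

/-!
# MP_141f81, Section 7e, (E2): the fields of the squaring

`XS` the letters of the rows of `S` of roles different from zero, `P1` those with roles in `Lin`; the relators are words
of at most `k` letters whose area is at most `r` for the lines of `R ⊇ S`.  Everything the contract `In7` wants to know
about `φ`, `Ts = φ T1`, `Ps = φ P1`.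
-/

namespace Pool.Agent.helper35.MF

open Finset Pool.Agent.MF Pool.Agent.helper20.MF

variable {V : Type} [AddCommGroup V] [Fintype V] [DecidableEq V] {M : Mat V} {n : ℕ}
  {R S : Finset (V → Fin n)} {Lin : Finset V} {a b : V} {A B sq : V → V}

theorem sq_zero (hK : KillAlg M Lin a b A B sq) : sq 0 = 0 := by
  have h1 := hK.sq_add 0 hK.lin.zero 0 hK.lin.zero
  rw [add_zero, M.two] at h1
  exact h1

theorem sq_ne_zero (hK : KillAlg M Lin a b A B sq) {v : V} (hv : v ∈ Lin) (h0 : v ≠ 0) : sq v ≠ 0 := by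
  intro h
  exact h0 (sq_inj hK v hv 0 hK.lin.zero (by rw [h, sq_zero hK]))

theorem a_ne_zero (hK : KillAlg M Lin a b A B sq) : a ≠ 0 := by
  intro h
  have h1 := hK.ind
  rw [h] at h1
  have h2 : M.rk ({0, b} : Finset V) ≤ M.rk {0} + 1 := by
    have h3 := M.rk_insert_le b {0}
    have h4 : ({0, b} : Finset V) = insert b {0} := by
      ext x
      simp only [Finset.mem_insert, Finset.mem_singleton]
      tauto
    rw [h4]
    exact h3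
  rw [M.rk_zero] at h2
  omega

/-- the fields of `φ` -/
theorem phi_fields (hK : KillAlg M Lin a b A B sq) (hE : Exact M R) (hSR : S ⊆ R)
    {XS P1 : Finset (V × Fin n)} (hXS : ∀ p, p ∈ XS ↔ p.1 ≠ 0 ∧ ∃ ρ ∈ S, ρ p.1 = p.2)
    (hP1 : ∀ p, p ∈ P1 ↔ p.1 ∈ Lin ∧ p.1 ≠ 0 ∧ ∃ ρ ∈ S, ρ p.1 = p.2) {T T1 : Set (G V n)} {k r : ℕ}
    (hT : ∀ g, g ∈ T ↔ (∃ l : List (V × Fin n), l.length ≤ k ∧ (∀ x ∈ l, x ∈ XS) ∧ wd l = g) ∧
      g ∈ Ball (Lines M ∅ Finset.univ R) r)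
    (hT1 : ∀ g, g ∈ T1 ↔ (∃ l : List (V × Fin n), l.length ≤ k ∧ (∀ x ∈ l, x ∈ P1) ∧ wd l = g) ∧
      g ∈ Ball (Lines M ∅ Lin R) r) :
    P1 ⊆ XS ∧ P1.image (phiv R Lin sq) ⊆ XS ∧ phi R Lin sq '' T1 ⊆ T ∧
    (∀ ρ ∈ S, ((a, ρ a) : V × Fin n) ∈ P1 ∧ phi R Lin sq (sy (a, ρ a)) = sy (sq a, ρ (sq a))) ∧
    (∀ t ∈ T1, phi R Lin sq t ∈ phi R Lin sq '' T1) ∧
    (∀ q ∈ P1, ∃ q' ∈ P1.image (phiv R Lin sq), phi R Lin sq (sy q) = sy q') ∧
    (∀ q' ∈ P1.image (phiv R Lin sq), ∃ q ∈ P1, phi R Lin sq (sy q) = sy q') ∧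
    (∀ (l : List (V × Fin n)) (r' : ℕ), (∀ q ∈ l, q ∈ P1) →
      phi R Lin sq (wd l) ∈ Ball (phi R Lin sq '' T1) r' → wd l ∈ Ball T1 r') := by
  classical
  have hP1L : ∀ p ∈ P1, p ∈ Lets R Lin := by
    intro p hp
    obtain ⟨h1, -, ρ, hρ, h2⟩ := (hP1 p).1 hp
    exact ⟨ρ, hSR hρ, h1, h2⟩
  have hphiv : ∀ p ∈ P1, phiv R Lin sq p ∈ XS := by
    rintro ⟨v, x⟩ hp
    obtain ⟨h1, h0, ρ, hρ, h2⟩ := (hP1 _).1 hp
    change ρ v = x at h2
    subst h2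
    rw [phiv_eq hE hK.sq_cl h1 (hSR hρ)]
    exact (hXS _).2 ⟨sq_ne_zero hK h1 h0, ρ, hρ, rfl⟩
  have hT1L : T1 ⊆ (LSpan R Lin : Set (G V n)) := by
    intro g hg
    obtain ⟨⟨l, -, hl, rfl⟩, -⟩ := (hT1 g).1 hg
    exact wd_mem_LSpan fun x hx => hP1L x (hl x hx)
  refine ⟨?_, ?_, ?_, ?_, ?_, ?_, ?_, ?_⟩
  · intro p hp
    obtain ⟨-, h0, h2⟩ := (hP1 p).1 hp
    exact (hXS p).2 ⟨h0, h2⟩
  · intro p hp
    obtain ⟨q, hq, rfl⟩ := Finset.mem_image.mp hp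
    exact hphiv q hq
  · rintro _ ⟨t, ht, rfl⟩
    obtain ⟨⟨l, hl, hlP, rfl⟩, hb⟩ := (hT1 t).1 ht
    refine (hT _).2 ⟨⟨l.map (phiv R Lin sq), by rwa [List.length_map], ?_, ?_⟩, ?_⟩
    · intro x hx
      obtain ⟨y, hy, rfl⟩ := List.mem_map.mp hx
      exact hphiv y (hlP y hy)
    · change ((l.map (phiv R Lin sq)).map sy).sum = phi R Lin sq ((l.map sy).sum)
      rw [map_list_sum, List.map_map, List.map_map]
      congr 1
      refine List.map_congr_left fun y _ => ?_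
      exact (phi_sy y).symm
    · exact phi_ball hE hK.sq_cl hK.sq_cl' hK.sq_add subset_rfl hb
  · intro ρ hρ
    refine ⟨(hP1 _).2 ⟨hK.a_mem, a_ne_zero hK, ρ, hρ, rfl⟩, ?_⟩
    rw [phi_sy, phiv_eq hE hK.sq_cl hK.a_mem (hSR hρ)]
  · exact fun t ht => ⟨t, ht, rfl⟩
  · exact fun q hq => ⟨_, Finset.mem_image_of_mem _ hq, phi_sy q⟩
  · intro q' hq'
    obtain ⟨q, hq, rfl⟩ := Finset.mem_image.mp hq'
    exact ⟨q, hq, phi_sy q⟩
  · intro l r' hl h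
    exact phi_iso hE hK.sq_cl hK.sq_cl' (sq_inj hK) hT1L (wd_mem_LSpan fun x hx => hP1L x (hl x hx)) h

end Pool.Agent.helper35.MF
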