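import Mathlib

set_option autoImplicit false

/-!
# MP_141f81: popular returns are syndetic (finite form, explicit constants)
-/

namespace Pool.Agent.helper35.MF

open Finset

variable {G : Type*} [AddCommGroup G] {N : G → ℕ}

open Classical in
/-- the elements of `G0` which have a translate by `s` in `G0`, up to `c` -/
noncomputable def pop (N : G → ℕ) (G0 : Finset G) (c : ℕ) (s : G) : Finset G :=
  G0.filter fun x => ∃ y ∈ G0, N (x + y + s) ≤ c

/-- Cauchy-Schwarz for set families -/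
theorem sq_sum_card_le {α ι : Type*} [DecidableEq α] (D : Finset α) (T : Finset ι) (A : ι → Finset α)
    (hA : ∀ a ∈ T, A a ⊆ D) :
    (∑ a ∈ T, (A a).card) ^ 2 ≤ D.card * ∑ a ∈ T, ∑ b ∈ T, (A a ∩ A b).card := by
  have h1 : ∑ a ∈ T, (A a).card = ∑ x ∈ D, ∑ a ∈ T, (if x ∈ A a then 1 else 0) := by
    rw [Finset.sum_comm]
    refine Finset.sum_congr rfl fun a ha => ?_
    rw [Finset.card_eq_sum_ones, ← Finset.sum_filter]
    congr 1
    ext x
    rw [Finset.mem_filter]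
    exact ⟨fun hx => ⟨hA a ha hx, hx⟩, fun hx => hx.2⟩
  have h2 : ∑ a ∈ T, ∑ b ∈ T, (A a ∩ A b).card =
      ∑ x ∈ D, (∑ a ∈ T, (if x ∈ A a then 1 else 0)) ^ 2 := by
    have h3 : ∀ x ∈ D, (∑ a ∈ T, (if x ∈ A a then 1 else 0)) ^ 2 =
        ∑ a ∈ T, ∑ b ∈ T, (if x ∈ A a ∩ A b then 1 else 0) := by
      intro x _
      rw [sq, Finset.sum_mul_sum]
      refine Finset.sum_congr rfl fun a _ => Finset.sum_congr rfl fun b _ => ?_
      by_cases ha : x ∈ A a <;> by_cases hb : x ∈ A b <;> simp [ha, hb]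
    have h4 : ∀ a ∈ T, ∀ b : ι, (A a ∩ A b).card =
        ∑ x ∈ D, (if x ∈ A a ∩ A b then 1 else 0) := by
      intro a ha b
      rw [Finset.card_eq_sum_ones, ← Finset.sum_filter]
      congr 1
      ext x
      rw [Finset.mem_filter]
      exact ⟨fun hx => ⟨hA a ha (Finset.mem_inter.mp hx).1, hx⟩, fun hx => hx.2⟩
    calc ∑ a ∈ T, ∑ b ∈ T, (A a ∩ A b).card
        = ∑ a ∈ T, ∑ b ∈ T, ∑ x ∈ D, (if x ∈ A a ∩ A b then 1 else 0) :=
          Finset.sum_congr rfl fun a ha => Finset.sum_congr rfl fun b _ => h4 a ha b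
      _ = ∑ a ∈ T, ∑ x ∈ D, ∑ b ∈ T, (if x ∈ A a ∩ A b then 1 else 0) :=
          Finset.sum_congr rfl fun a _ => Finset.sum_comm
      _ = ∑ x ∈ D, ∑ a ∈ T, ∑ b ∈ T, (if x ∈ A a ∩ A b then 1 else 0) := Finset.sum_comm
      _ = _ := (Finset.sum_congr rfl h3).symm
  rw [h1, h2]
  exact sq_sum_le_card_mul_sum_sq

/-- the coarse set `D`: closed under addition up to `C`, balls of radius `2 C` have at most `B` elements -/
structure CFin (N : G → ℕ) (D : Finset G) (C B : ℕ) : Prop where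
  two : ∀ g : G, g + g = 0
  N0 : N 0 = 0
  Nadd : ∀ a b, N (a + b) ≤ N a + N b
  add : ∀ a ∈ D, ∀ b ∈ D, ∃ c ∈ D, N (a + b + c) ≤ C
  ball : ∀ (a : G) (A : Finset G), A ⊆ D → (∀ x ∈ A, N (a + x) ≤ C) → A.card ≤ B

/-- **A pairwise unpopular family is small.** -/
theorem CFin.unpopular_card {D : Finset G} {C B : ℕ} (h : CFin N D C B) {G0 T : Finset G} (hG0 : G0 ⊆ D)
    (hT : T ⊆ D) {q : ℕ} (hq : D.card ≤ q * G0.card) (hB : 0 < B) (hqp : 0 < q) (hD : D.Nonempty)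
    (hun : ∀ a ∈ T, ∀ b ∈ T, a ≠ b → ∀ s ∈ D, N (a + b + s) ≤ C →
      2 * q ^ 2 * B ^ 3 * (pop N G0 (3 * C) s).card < D.card) :
    T.card ≤ 2 * q ^ 2 * B ^ 2 := by
  classical
  have hex : ∀ a x : G, ∃ y, a ∈ D → x ∈ D → y ∈ D ∧ N (x + a + y) ≤ C := by
    intro a x
    by_cases ha : a ∈ D
    · by_cases hx : x ∈ D
      · obtain ⟨c, hc, h1⟩ := h.add x hx a ha
        exact ⟨c, fun _ _ => ⟨hc, h1⟩⟩
      · exact ⟨0, fun _ h0 => absurd h0 hx⟩
    · exact ⟨0, fun h0 => absurd h0 ha⟩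
  choose τ hτ using hex
  have le_add : ∀ a b : G, N a ≤ N (a + b) + N b := by
    intro a b
    have h1 := h.Nadd (a + b) b
    rwa [add_assoc, h.two, add_zero] at h1
  obtain ⟨A, hA⟩ : ∃ A : G → Finset G, A = fun a => G0.image (τ a) := ⟨_, rfl⟩
  have hAD : ∀ a ∈ T, A a ⊆ D := by
    intro a ha x hx
    rw [hA, Finset.mem_image] at hx
    obtain ⟨y, hy, rfl⟩ := hx
    exact (hτ a y (hT ha) (hG0 hy)).1
  have hAc : ∀ a ∈ T, G0.card ≤ (A a).card * B := by
    intro a ha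
    have h1 := Finset.card_le_mul_card_image (f := τ a) G0 B (by
      intro y _
      refine h.ball (a + y) _ (fun x hx => hG0 (Finset.mem_filter.mp hx).1) fun x hx => ?_
      rw [Finset.mem_filter] at hx
      have h2 := (hτ a x (hT ha) (hG0 hx.1)).2
      rw [hx.2] at h2
      have h3 : a + y + x = x + a + y := by abel
      rwa [h3])
    rw [hA, mul_comm]
    exact h1
  have hAA : ∀ a ∈ T, ∀ b ∈ T, a ≠ b →
      2 * q ^ 2 * B ^ 3 * (A a ∩ A b).card ≤ B * D.card := by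
    intro a ha b hb hab
    obtain ⟨s, hs, h1⟩ := h.add a (hT ha) b (hT hb)
    have h2 := hun a ha b hb hab s hs h1
    have hex2 : ∀ z : G, ∃ x, z ∈ A a ∩ A b → x ∈ pop N G0 (3 * C) s ∧ N (a + x + z) ≤ C := by
      intro z
      by_cases hz : z ∈ A a ∩ A b
      · rw [Finset.mem_inter, hA, Finset.mem_image, Finset.mem_image] at hz
        obtain ⟨⟨x, hx, hxz⟩, ⟨y, hy, hyz⟩⟩ := hz
        have e1 := (hτ a x (hT ha) (hG0 hx)).2
        have e2 := (hτ b y (hT hb) (hG0 hy)).2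
        rw [hxz] at e1
        rw [hyz] at e2
        have e3 := h.Nadd (x + a + z) (y + b + z)
        have e4 : x + a + z + (y + b + z) = x + y + (a + b) := by
          have f1 := h.two z
          calc x + a + z + (y + b + z) = x + y + (a + b) + (z + z) := by abel
            _ = _ := by rw [f1, add_zero]
        rw [e4] at e3
        have e5 := h.Nadd (x + y + (a + b)) (a + b + s)
        have e6 : x + y + (a + b) + (a + b + s) = x + y + s := by
          have f1 := h.two (a + b)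
          calc x + y + (a + b) + (a + b + s) = x + y + s + ((a + b) + (a + b)) := by abel
            _ = _ := by rw [f1, add_zero]
        rw [e6] at e5
        refine ⟨x, fun _ => ⟨?_, ?_⟩⟩
        · rw [pop, Finset.mem_filter]
          exact ⟨hx, y, hy, by omega⟩
        · have e7 : a + x + z = x + a + z := by abel
          rwa [e7]
      · exact ⟨0, fun h0 => absurd h0 hz⟩
    choose ξ hξ using hex2
    have h3 : (A a ∩ A b).card ≤ B * ((A a ∩ A b).image ξ).card :=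
      Finset.card_le_mul_card_image (f := ξ) (A a ∩ A b) B (by
        intro x _
        refine h.ball (a + x) _ (fun z hz => hAD a ha
          (Finset.mem_inter.mp (Finset.mem_filter.mp hz).1).1) fun z hz => ?_
        rw [Finset.mem_filter] at hz
        have h4 := (hξ z hz.1).2
        rw [hz.2] at h4
        exact h4)
    have h4 : ((A a ∩ A b).image ξ).card ≤ (pop N G0 (3 * C) s).card := by
      refine Finset.card_le_card fun x hx => ?_
      rw [Finset.mem_image] at hx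
      obtain ⟨z, hz, rfl⟩ := hx
      exact (hξ z hz).1
    calc 2 * q ^ 2 * B ^ 3 * (A a ∩ A b).card
        ≤ 2 * q ^ 2 * B ^ 3 * (B * (pop N G0 (3 * C) s).card) :=
          Nat.mul_le_mul_left _ (h3.trans (Nat.mul_le_mul_left _ h4))
      _ = B * (2 * q ^ 2 * B ^ 3 * (pop N G0 (3 * C) s).card) := by ring
      _ ≤ B * D.card := Nat.mul_le_mul_left _ h2.le
  have h5 := sq_sum_card_le D T A hAD
  have h6 : 2 * q ^ 2 * B ^ 3 * ∑ a ∈ T, ∑ b ∈ T, (A a ∩ A b).card ≤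
      2 * q ^ 2 * B ^ 3 * (T.card * D.card) + T.card ^ 2 * (B * D.card) := by
    rw [Finset.mul_sum]
    have h7 : ∀ a ∈ T, 2 * q ^ 2 * B ^ 3 * ∑ b ∈ T, (A a ∩ A b).card ≤
        2 * q ^ 2 * B ^ 3 * D.card + T.card * (B * D.card) := by
      intro a ha
      rw [Finset.mul_sum, ← Finset.add_sum_erase _ _ ha]
      refine Nat.add_le_add (Nat.mul_le_mul_left _ (Finset.card_le_card
        (Finset.inter_subset_left.trans (hAD a ha)))) ?_
      calc ∑ b ∈ T.erase a, 2 * q ^ 2 * B ^ 3 * (A a ∩ A b).card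
          ≤ ∑ _b ∈ T.erase a, B * D.card := Finset.sum_le_sum fun b hb =>
            hAA a ha b (Finset.mem_of_mem_erase hb) (Finset.ne_of_mem_erase hb).symm
        _ = (T.erase a).card * (B * D.card) := by rw [Finset.sum_const, smul_eq_mul]
        _ ≤ T.card * (B * D.card) :=
          Nat.mul_le_mul_right _ (Finset.card_le_card (Finset.erase_subset _ _))
    calc ∑ a ∈ T, 2 * q ^ 2 * B ^ 3 * ∑ b ∈ T, (A a ∩ A b).card
        ≤ ∑ _a ∈ T, (2 * q ^ 2 * B ^ 3 * D.card + T.card * (B * D.card)) := Finset.sum_le_sum h7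
      _ = T.card * (2 * q ^ 2 * B ^ 3 * D.card + T.card * (B * D.card)) := by
        rw [Finset.sum_const, smul_eq_mul]
      _ = _ := by ring
  have h8 : T.card * G0.card ≤ (∑ a ∈ T, (A a).card) * B := by
    rw [Finset.sum_mul]
    calc T.card * G0.card = ∑ _a ∈ T, G0.card := by rw [Finset.sum_const, smul_eq_mul]
      _ ≤ _ := Finset.sum_le_sum hAc
  obtain ⟨S, hS⟩ : ∃ S, ∑ a ∈ T, (A a).card = S := ⟨_, rfl⟩
  obtain ⟨W, hW⟩ : ∃ W, ∑ a ∈ T, ∑ b ∈ T, (A a ∩ A b).card = W := ⟨_, rfl⟩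
  obtain ⟨m, hm⟩ : ∃ m, T.card = m := ⟨_, rfl⟩
  obtain ⟨d, hd⟩ : ∃ d, D.card = d := ⟨_, rfl⟩
  have hd0 : 0 < d := by
    rw [← hd]
    exact Finset.card_pos.mpr hD
  rw [hS, hW, hd] at h5
  rw [hW, hm, hd] at h6
  rw [hm, hS] at h8
  rw [hd] at hq
  rw [hm]
  -- `m d ≤ q B S`
  have e1 : m * d ≤ q * B * S := by
    calc m * d ≤ m * (q * G0.card) := Nat.mul_le_mul_left _ hq
      _ = q * (m * G0.card) := by ring
      _ ≤ q * (S * B) := Nat.mul_le_mul_left _ h8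
      _ = _ := by ring
  have e2 : (m * d) ^ 2 ≤ (q * B) ^ 2 * (d * W) := by
    calc (m * d) ^ 2 ≤ (q * B * S) ^ 2 := Nat.pow_le_pow_left e1 2
      _ = (q * B) ^ 2 * S ^ 2 := by ring
      _ ≤ _ := Nat.mul_le_mul_left _ h5
  have e3 : 2 * q ^ 2 * B ^ 3 * (m * d) ^ 2 ≤
      (q * B) ^ 2 * d * (2 * q ^ 2 * B ^ 3 * (m * d) + m ^ 2 * (B * d)) := by
    calc 2 * q ^ 2 * B ^ 3 * (m * d) ^ 2 ≤ 2 * q ^ 2 * B ^ 3 * ((q * B) ^ 2 * (d * W)) :=
          Nat.mul_le_mul_left _ e2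
      _ = (q * B) ^ 2 * d * (2 * q ^ 2 * B ^ 3 * W) := by ring
      _ ≤ _ := Nat.mul_le_mul_left _ h6
  have e4 : q ^ 2 * B ^ 3 * d ^ 2 * m * m ≤ q ^ 2 * B ^ 3 * d ^ 2 * m * (2 * q ^ 2 * B ^ 2) := by
    have f1 : 2 * q ^ 2 * B ^ 3 * (m * d) ^ 2 =
        q ^ 2 * B ^ 3 * d ^ 2 * m * m + q ^ 2 * B ^ 3 * d ^ 2 * m * m := by ring
    have f2 : (q * B) ^ 2 * d * (2 * q ^ 2 * B ^ 3 * (m * d) + m ^ 2 * (B * d)) =
        q ^ 2 * B ^ 3 * d ^ 2 * m * (2 * q ^ 2 * B ^ 2) + q ^ 2 * B ^ 3 * d ^ 2 * m * m := by ring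
    rw [f1, f2] at e3
    omega
  rcases Nat.eq_zero_or_pos m with h0 | h0
  · rw [h0]
    exact Nat.zero_le _
  · exact Nat.le_of_mul_le_mul_left e4 (by positivity)

end Pool.Agent.helper35.MF
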