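import Pool.Agent.helper35.MF.Ring

set_option autoImplicit false

/-!
# MP_141f81: syndetic sets and coarse subgroups in a chain connected coarse group (lemmas L2', L4)
-/

namespace Pool.Agent.helper35.MF

variable {G G' : Type*} [AddCommGroup G] [AddCommGroup G'] {N : G → ℕ} {N' : G' → ℕ} {K : Set G} {C R : ℕ}
  {F β : ℕ → ℕ}

namespace CGroup

variable (h : CGroup N K C R β)
include h

/-- **L4.** A coarse homomorphism which is bounded by `E` on a subset `S` of which `n` translates cover `K` is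
bounded. -/
theorem bounded_of_syndetic (two' : ∀ g : G', g + g = 0) (N0' : N' 0 = 0)
    (Nadd' : ∀ a b, N' (a + b) ≤ N' a + N' b) {ψ : G → G'}
    (hψ : ∀ b ∈ K, ∀ c ∈ K, ∀ e ∈ K, N' (ψ b + ψ c + ψ e) ≤ F (N (b + c + e))) (mono : Monotone F)
    {S : Set G} (hSK : S ⊆ K) {T : Finset G} (hTK : ∀ f ∈ T, f ∈ K) {n E c : ℕ} (hT : T.card ≤ n)
    (hS : ∀ s ∈ S, N' (ψ s) ≤ E) (hcov : ∀ k ∈ K, ∃ f ∈ T, ∃ s ∈ S, N (k + f + s) ≤ c)
    {k : G} (hk : k ∈ K) :
    N' (ψ k) ≤ n * (F R + 2 * F 0 + 2 * (F c + E) + 1) + F 0 := by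
  have le' : ∀ a b : G', N' a ≤ N' (a + b) + N' b := by
    intro a b
    have h1 := Nadd' (a + b) b
    rwa [add_assoc, two', add_zero] at h1
  have hψ0 : N' (ψ 0) ≤ F 0 := by
    have h1 := hψ 0 h.zero 0 h.zero 0 h.zero
    rw [two', zero_add, add_zero, add_zero, h.N0] at h1
    exact h1
  have hlip : ∀ b ∈ K, ∀ c ∈ K, N' (ψ b + ψ c) ≤ F (N (b + c)) + F 0 := by
    intro b hb c hc
    have h1 := hψ b hb c hc 0 h.zero
    rw [add_zero] at h1
    have h2 := le' (ψ b + ψ c) (ψ 0)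
    omega
  have hne : T.Nonempty := by
    obtain ⟨f, hf, _⟩ := hcov 0 h.zero
    exact ⟨f, hf⟩
  have hex : ∀ a : G, ∃ f : T, a ∈ K → ∃ s ∈ S, N (a + f + s) ≤ c := by
    intro a
    by_cases ha : a ∈ K
    · obtain ⟨f, hf, s, hs, h1⟩ := hcov a ha
      exact ⟨⟨f, hf⟩, fun _ => ⟨s, hs, h1⟩⟩
    · exact ⟨⟨_, hne.choose_spec⟩, fun h0 => absurd h0 ha⟩
  choose cls hcls using hex
  have hnear : ∀ a ∈ K, N' (ψ a + ψ (cls a)) ≤ F c + E := by
    intro a ha
    obtain ⟨s, hs, h1⟩ := hcls a ha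
    have h2 := hψ a ha _ (hTK _ (cls a).2) s (hSK hs)
    have h3 := mono h1
    have h4 := le' (ψ a + ψ (cls a)) (ψ s)
    have h5 := hS s hs
    omega
  have h1 := h.few_values (g := fun a => N' (ψ a + ψ 0)) (s := F R + 2 * F 0) (n := n)
    (c := 2 * (F c + E)) (by rw [two', N0']) (by
      intro a ha b hb hab
      have e1 := hlip a ha b hb
      have e2 := mono hab
      have e3 := Nadd' (ψ a + ψ 0) (ψ a + ψ b)
      have e4 : ψ a + ψ 0 + (ψ a + ψ b) = ψ b + ψ 0 := by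
        rw [add_add_add_comm, two', zero_add, add_comm]
      rw [e4] at e3
      omega) (ι := T) (by rw [Fintype.card_coe]; exact hT) cls (by
      intro a ha b hb hab
      have e1 := hnear a ha
      have e2 := hnear b hb
      rw [hab] at e1
      have e3 := Nadd' (ψ a + ψ (cls b)) (ψ b + ψ (cls b))
      rw [add_add_add_comm, two', add_zero] at e3
      have e4 := Nadd' (ψ a + ψ 0) (ψ a + ψ b)
      have e5 : ψ a + ψ 0 + (ψ a + ψ b) = ψ b + ψ 0 := by
        rw [add_add_add_comm, two', zero_add, add_comm]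
      rw [e5] at e4
      omega) hk
  have h2 := le' (ψ k) (ψ 0)
  omega

/-- **L2'.** A coarse subgroup of which `n` translates cover `K` is dense. -/
theorem dense_of_index {Y : Set G} (hY0 : (0 : G) ∈ Y) {n c : ℕ}
    (hY : ∀ y ∈ Y, ∀ y' ∈ Y, ∃ y'' ∈ Y, N (y + y' + y'') ≤ c) {T : Finset G} (hT : T.card ≤ n)
    (hcov : ∀ k ∈ K, ∃ f ∈ T, ∃ y ∈ Y, N (k + f + y) ≤ c) {k : G} (hk : k ∈ K) :
    ∃ y ∈ Y, N (k + y) ≤ n * (R + 4 * c + 1) := by
  classical
  have hex : ∀ a : G, ∃ m, ∃ y ∈ Y, N (a + y) = m := fun a => ⟨_, 0, hY0, rfl⟩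
  have hg : ∀ a : G, ∀ y ∈ Y, Nat.find (hex a) ≤ N (a + y) := fun a y hy =>
    Nat.find_min' (hex a) ⟨y, hy, rfl⟩
  have hne : T.Nonempty := by
    obtain ⟨f, hf, _⟩ := hcov 0 h.zero
    exact ⟨f, hf⟩
  have hex2 : ∀ a : G, ∃ f : T, a ∈ K → ∃ s ∈ Y, N (a + f + s) ≤ c := by
    intro a
    by_cases ha : a ∈ K
    · obtain ⟨f, hf, s, hs, h1⟩ := hcov a ha
      exact ⟨⟨f, hf⟩, fun _ => ⟨s, hs, h1⟩⟩
    · exact ⟨⟨_, hne.choose_spec⟩, fun h0 => absurd h0 ha⟩
  choose cls hcls using hex2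
  have h1 := h.few_values (g := fun a => Nat.find (hex a)) (s := R) (n := n) (c := 4 * c) (by
      have h2 := hg 0 0 hY0
      rw [add_zero, h.N0] at h2
      omega) (by
      intro a ha b hb hab
      obtain ⟨y, hy, e1⟩ := Nat.find_spec (hex a)
      have e2 := hg b y hy
      have e3 := h.Nadd (a + b) (a + y)
      rw [add_add_add_comm, h.two, zero_add] at e3
      omega) (ι := T) (by rw [Fintype.card_coe]; exact hT) cls (by
      intro a ha b hb hab
      obtain ⟨y1, hy1, e1⟩ := hcls a ha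
      obtain ⟨y2, hy2, e2⟩ := hcls b hb
      rw [hab] at e1
      obtain ⟨y, hy, e3⟩ := Nat.find_spec (hex a)
      obtain ⟨y3, hy3, e4⟩ := hY y1 hy1 y2 hy2
      obtain ⟨y4, hy4, e5⟩ := hY y3 hy3 y hy
      have e6 := hg b y4 hy4
      have f1 := h.Nadd (a + cls b + y1) (b + cls b + y2)
      have f2 : a + cls b + y1 + (b + cls b + y2) = a + b + (y1 + y2) := by
        have f3 := h.two (cls b : G)
        calc a + cls b + y1 + (b + cls b + y2) = a + b + (y1 + y2) + ((cls b : G) + cls b) := by abel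
          _ = _ := by rw [f3, add_zero]
      rw [f2] at f1
      have f4 := h.Nadd (a + b + (y1 + y2)) (y1 + y2 + y3)
      have f5 : a + b + (y1 + y2) + (y1 + y2 + y3) = a + b + y3 := by
        have f3 := h.two (y1 + y2)
        calc a + b + (y1 + y2) + (y1 + y2 + y3) = a + b + y3 + ((y1 + y2) + (y1 + y2)) := by abel
          _ = _ := by rw [f3, add_zero]
      rw [f5] at f4
      have f6 := h.Nadd (a + b + y3) (y3 + y + y4)
      have f7 : a + b + y3 + (y3 + y + y4) = (a + y) + (b + y4) := by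
        have f3 := h.two y3
        calc a + b + y3 + (y3 + y + y4) = (a + y) + (b + y4) + (y3 + y3) := by abel
          _ = _ := by rw [f3, add_zero]
      rw [f7] at f6
      have f8 := h.le_add (b + y4) (a + y)
      rw [add_comm (b + y4) (a + y)] at f8
      omega) hk
  obtain ⟨y, hy, e1⟩ := Nat.find_spec (hex k)
  exact ⟨y, hy, by omega⟩

end CGroup

end Pool.Agent.helper35.MF
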